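import Mathlib

/-!
A Grönwall argument for a differential inequality which holds in a window of values only.
-/

set_option autoImplicit false

open MeasureTheory Set Filter Topology

namespace Pool.Agent.TH305.FB

/-- Grönwall's inequality on an interval where the function is positive. -/
theorem gron_log {F F' g : ℝ → ℝ} {a b B : ℝ} (hab : a ≤ b)
    (hc : ContinuousOn F (Icc a b)) (hpos : ∀ t ∈ Icc a b, 0 < F t)
    (hd : ∀ t ∈ Ioo a b, HasDerivAt F (F' t) t)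
    (hgi : IntegrableOn g (Icc a b)) (hgB : ∫ s in a..b, g s ≤ B)
    (hle : ∀ t ∈ Ioo a b, F' t ≤ g t * F t) : F b ≤ F a * Real.exp B := by
  have hcl : ContinuousOn (fun s => Real.log (F s)) (Icc a b) :=
    hc.log fun s hs => (hpos s hs).ne'
  have hd' : ∀ s ∈ Ioo a b, HasDerivWithinAt (fun s => Real.log (F s)) (F' s / F s) (Ioi s) s :=
    fun s hs => ((hd s hs).log (hpos s ⟨hs.1.le, hs.2.le⟩).ne').hasDerivWithinAt
  have hle' : ∀ s ∈ Ioo a b, F' s / F s ≤ g s := fun s hs => by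
    rw [div_le_iff₀ (hpos s ⟨hs.1.le, hs.2.le⟩)]
    exact hle s hs
  have h1 := intervalIntegral.sub_le_integral_of_hasDeriv_right_of_le hab hcl hd' hgi hle'
  have hFa := hpos a ⟨le_rfl, hab⟩
  have hFb := hpos b ⟨hab, le_rfl⟩
  have h2 : Real.log (F b) ≤ Real.log (F a) + B := by linarith
  calc F b = Real.exp (Real.log (F b)) := (Real.exp_log hFb).symm
    _ ≤ Real.exp (Real.log (F a) + B) := Real.exp_le_exp.2 h2
    _ = F a * Real.exp B := by rw [Real.exp_add, Real.exp_log hFa]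

theorem gron_window {F F' g : ℝ → ℝ} {t1 A B Lg : ℝ} (ht : 0 ≤ t1) (hA : 0 < A)
    (hF0 : F 0 ≤ A) (hLg : 0 ≤ Lg) (hB : A * Real.exp Lg < B)
    (hc : ContinuousOn F (Icc 0 t1)) (hd : ∀ t ∈ Ioo 0 t1, HasDerivAt F (F' t) t)
    (hg0 : ∀ t ∈ Ioo 0 t1, 0 ≤ g t) (hgi : IntegrableOn g (Icc 0 t1))
    (hgB : ∫ s in (0 : ℝ)..t1, g s ≤ Lg)
    (hle : ∀ t ∈ Ioo 0 t1, A ≤ F t → F t ≤ B → F' t ≤ g t * F t) :
    F t1 ≤ A * Real.exp Lg := by
  by_contra hcon
  push Not at hcon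
  have hexp : 1 ≤ Real.exp Lg := Real.one_le_exp hLg
  have hAe : A ≤ A * Real.exp Lg := by nlinarith
  -- an intermediate value
  obtain ⟨B', hB1, hB2⟩ := exists_between (lt_min hcon hB)
  have hB2' := lt_min_iff.1 hB2
  -- the first time at which the value `B'` is taken
  set S1 : Set ℝ := {t ∈ Icc 0 t1 | B' ≤ F t} with hS1
  have hS1c : IsClosed S1 := hc.preimage_isClosed_of_isClosed isClosed_Icc isClosed_Ici
  have hS1ne : S1.Nonempty := ⟨t1, ⟨ht, le_rfl⟩, hB2'.1.le⟩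
  have hS1b : BddBelow S1 := ⟨0, fun t h => h.1.1⟩
  set t2 := sInf S1 with ht2
  have ht2m : t2 ∈ S1 := hS1c.csInf_mem hS1ne hS1b
  have hlt2 : ∀ t ∈ Icc 0 t1, t < t2 → F t < B' := by
    intro t h h2
    by_contra h3
    push Not at h3
    exact absurd (csInf_le hS1b (show t ∈ S1 from ⟨h, h3⟩)) (not_le.2 h2)
  -- the last time before `t2` at which the value is at most `A`
  set S2 : Set ℝ := {t ∈ Icc 0 t2 | F t ≤ A} with hS2
  have hc2 : ContinuousOn F (Icc 0 t2) := hc.mono (Icc_subset_Icc le_rfl ht2m.1.2)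
  have hS2c : IsClosed S2 := hc2.preimage_isClosed_of_isClosed isClosed_Icc isClosed_Iic
  have hS2ne : S2.Nonempty := ⟨0, ⟨le_rfl, ht2m.1.1⟩, hF0⟩
  have hS2b : BddAbove S2 := ⟨t2, fun t h => h.1.2⟩
  set t3 := sSup S2 with ht3
  have ht3m : t3 ∈ S2 := hS2c.csSup_mem hS2ne hS2b
  have hgt3 : ∀ t, t3 < t → t ≤ t2 → A < F t := by
    intro t h1 h2
    by_contra h3
    push Not at h3
    exact absurd (le_csSup hS2b (show t ∈ S2 from ⟨⟨ht3m.1.1.trans h1.le, h2⟩, h3⟩)) (not_le.2 h1)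
  have h32 : t3 ≤ t2 := ht3m.1.2
  have h32' : t3 < t2 := by
    rcases h32.eq_or_lt with h | h
    · exfalso
      have h1 : B' ≤ F t2 := ht2m.2
      have h2 : F t3 ≤ A := ht3m.2
      rw [h] at h2
      linarith
    · exact h
  have hc3 : ContinuousOn F (Icc t3 t2) := hc.mono (Icc_subset_Icc ht3m.1.1 ht2m.1.2)
  have hF3 : A ≤ F t3 := by
    have h1 : Tendsto F (𝓝[Ioc t3 t2] t3) (𝓝 (F t3)) :=
      (hc3 t3 ⟨le_rfl, h32⟩).mono_left (nhdsWithin_mono _ Ioc_subset_Icc_self)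
    have h2 : (𝓝[Ioc t3 t2] t3).NeBot := by
      rw [← mem_closure_iff_nhdsWithin_neBot, closure_Ioc h32'.ne]
      exact ⟨le_rfl, h32⟩
    refine ge_of_tendsto h1 ?_
    filter_upwards [self_mem_nhdsWithin] with t h3
    exact (hgt3 t h3.1 h3.2).le
  have hFA : F t3 = A := le_antisymm ht3m.2 hF3
  have hsub : Icc t3 t2 ⊆ Icc 0 t1 := Icc_subset_Icc ht3m.1.1 ht2m.1.2
  have hint : ∫ s in t3..t2, g s ≤ Lg := by
    have hgi' : IntervalIntegrable g volume 0 t1 := by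
      rw [intervalIntegrable_iff_integrableOn_Icc_of_le ht]
      exact hgi
    refine le_trans ?_ hgB
    refine intervalIntegral.integral_mono_interval ht3m.1.1 h32 ht2m.1.2 ?_ hgi'
    have h0 : ∀ᵐ s ∂(volume : Measure ℝ), s ≠ t1 := by
      simp [ae_iff, measure_singleton]
    rw [Filter.EventuallyLE, ae_restrict_iff' measurableSet_Ioc]
    filter_upwards [h0] with s hs h
    exact hg0 s ⟨h.1, lt_of_le_of_ne h.2 hs⟩
  have h4 := gron_log h32 hc3 (fun t h => by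
      rcases h.1.eq_or_lt with h1 | h1
      · rw [← h1, hFA]; exact hA
      · exact hA.trans (hgt3 t h1 h.2))
    (fun t h => hd t ⟨ht3m.1.1.trans_lt h.1, h.2.trans_le ht2m.1.2⟩)
    (hgi.mono_set hsub) hint
    (fun t h => hle t ⟨ht3m.1.1.trans_lt h.1, h.2.trans_le ht2m.1.2⟩ (hgt3 t h.1 h.2.le).le
      ((hlt2 t (hsub ⟨h.1.le, h.2.le⟩) h.2).le.trans hB2'.2.le))
  rw [hFA] at h4
  linarith [ht2m.2]

end Pool.Agent.TH305.FB
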