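import Pool.Agent.TH305.FB.Band
import Pool.Agent.TH305.FB.Gw

/-!
The a priori bound from one band of frequencies.
-/

set_option autoImplicit false

open MeasureTheory Set Filter Topology
open scoped ContDiff
open H459R3.NS

namespace Pool.Agent.TH305.FB

/-- The activity in the band between `a` and `b`, split at `ρ`. -/
noncomputable def act (ν a b ρ : ℝ) (U : Fin 3 → K3 → ℂ) : ℝ :=
  (∑' k, {k : K3 | a ≤ (N k : ℝ) ∧ (N k : ℝ) ≤ b ∧ (N k : ℝ) ≤ ρ}.indicator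
    (fun k => (N k : ℝ) * am U k) k)
  + (∑' k, {k : K3 | a ≤ (N k : ℝ) ∧ (N k : ℝ) ≤ b ∧ ρ < (N k : ℝ)}.indicator (am U) k) ^ 2 / ν

theorem act_nonneg {ν : ℝ} (hν : 0 < ν) (a b ρ : ℝ) (U : Fin 3 → K3 → ℂ) :
    0 ≤ act ν a b ρ U := by
  unfold act
  have : 0 ≤ ∑' k, {k : K3 | a ≤ (N k : ℝ) ∧ (N k : ℝ) ≤ b ∧ (N k : ℝ) ≤ ρ}.indicator
    (fun k => (N k : ℝ) * am U k) k := tsum_nonneg fun k => Set.indicator_nonneg
      (fun k _ => mul_nonneg (by positivity) (am_nonneg U k)) k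
  positivity

variable {ν T : ℝ} {u : ℝ → V → V} {p : ℝ → V → ℝ} {κ : ℕ} {L : ℝ}

theorem EE_uh (h : IsSol ν T u p) {t : ℝ} (ht : t ∈ Ico 0 T) : EE (uh u t) = energy (u t) := by
  unfold EE e2 energy
  rw [Summable.tsum_finsetSum fun i _ => summable_sq (rap_uh h ht i).summable]
  refine Finset.sum_congr rfl fun i _ => ?_
  rw [← n2_sq, uh, n2_fr (h.sp ht i)]

theorem EE_le (h : IsSol ν T u p) (hν : 0 < ν) {t : ℝ} (ht : t ∈ Ico 0 T) :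
    EE (uh u t) ≤ EE (uh u 0) := by
  rw [EE_uh h ht, EE_uh h ⟨le_rfl, ht.1.trans_lt ht.2⟩]
  exact h.energy_le hν ht

theorem algebra {ν c K0 X Y Xlo XS Y2 Yhi F Q η E W β C : ℝ} (hν : 0 < ν) (hc : 1 ≤ c)
    (hC : 0 ≤ C) (hK0 : 0 < K0) (hF : 0 ≤ F) (hF2 : F ≤ ν ^ 2) (hXS0 : 0 ≤ XS)
    (hY0 : 0 ≤ Y) (hYhi0 : 0 ≤ Yhi)
    (hb : 24 * Real.pi * c * W + 216 * c ^ 2 * C * ν ≤ 2 * Real.pi ^ 2 * ν * K0 ^ 2)
    (hX : X ≤ Xlo + XS) (hXlo : Xlo ≤ W) (hY : Y ≤ Y2 + Yhi) (hYhi : Yhi ≤ √(3 * C * F))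
    (hact : XS + Y2 ^ 2 / ν ≤ β) (h3 : F ≤ η * E + Q / K0 ^ 2)
    (hF1 : 2 * η * E ≤ F) :
    -(4 * Real.pi ^ 2 * ν * Q) + 24 * Real.pi * c * X * F + 36 * c ^ 2 * Y ^ 2 * F / ν
      ≤ (100 * c ^ 2 * β) * F := by
  have hpi := Real.pi_pos
  have h4 : Yhi ^ 2 ≤ 3 * C * F := by
    calc Yhi ^ 2 ≤ √(3 * C * F) ^ 2 := by gcongr
      _ = 3 * C * F := Real.sq_sqrt (by positivity)
  have h5 : Y ^ 2 ≤ 2 * Y2 ^ 2 + 6 * C * F := by
    calc Y ^ 2 ≤ (Y2 + Yhi) ^ 2 := by gcongr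
      _ ≤ 2 * Y2 ^ 2 + 2 * Yhi ^ 2 := by nlinarith [sq_nonneg (Y2 - Yhi)]
      _ ≤ _ := by linarith
  have h6 : 36 * c ^ 2 * Y ^ 2 * F / ν ≤ 72 * c ^ 2 * (Y2 ^ 2 / ν) * F + 216 * c ^ 2 * C * ν * F := by
    have a1 : 36 * c ^ 2 * Y ^ 2 * F / ν ≤ 36 * c ^ 2 * (2 * Y2 ^ 2 + 6 * C * F) * F / ν := by
      gcongr
    have a2 : 36 * c ^ 2 * (2 * Y2 ^ 2 + 6 * C * F) * F / ν
        = 72 * c ^ 2 * (Y2 ^ 2 / ν) * F + 216 * c ^ 2 * C * (F / ν) * F := by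
      field_simp
      ring
    have a3 : F / ν ≤ ν := by
      rw [div_le_iff₀ hν]
      linarith
    have a4 : 216 * c ^ 2 * C * (F / ν) * F ≤ 216 * c ^ 2 * C * ν * F := by gcongr
    linarith
  have h7 : K0 ^ 2 * (F - η * E) ≤ Q := by
    have a2 : F - η * E ≤ Q / K0 ^ 2 := by linarith
    rwa [le_div_iff₀ (by positivity), mul_comm] at a2
  have h8 : 4 * Real.pi ^ 2 * ν * (K0 ^ 2 * (F - η * E)) ≤ 4 * Real.pi ^ 2 * ν * Q :=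
    mul_le_mul_of_nonneg_left h7 (by positivity)
  have h9 : 24 * Real.pi * c * X * F ≤ 24 * Real.pi * c * W * F + 24 * Real.pi * c * XS * F := by
    have : 24 * Real.pi * c * X * F ≤ 24 * Real.pi * c * (W + XS) * F := by
      gcongr
      linarith
    linarith
  have h10 := mul_le_mul_of_nonneg_right hb hF
  have h11 : 24 * Real.pi * c * XS + 72 * c ^ 2 * (Y2 ^ 2 / ν) ≤ 100 * c ^ 2 * β := by
    have a0 : 0 ≤ Y2 ^ 2 / ν := by positivity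
    have a1 : 24 * Real.pi * c * XS ≤ 100 * c ^ 2 * XS := by
      have b1 : Real.pi ≤ 4 := Real.pi_le_four
      have b2 : 24 * Real.pi * c ≤ 100 * c ^ 2 := by nlinarith
      exact mul_le_mul_of_nonneg_right b2 hXS0
    have a2 : 72 * c ^ 2 * (Y2 ^ 2 / ν) ≤ 100 * c ^ 2 * (Y2 ^ 2 / ν) := by
      refine mul_le_mul_of_nonneg_right ?_ a0
      have : 0 ≤ c ^ 2 := sq_nonneg c
      linarith
    have a3 : 100 * c ^ 2 * (XS + Y2 ^ 2 / ν) ≤ 100 * c ^ 2 * β :=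
      mul_le_mul_of_nonneg_left hact (by positivity)
    linarith
  have h12 := mul_le_mul_of_nonneg_right h11 hF
  have h13 : 0 ≤ 2 * Real.pi ^ 2 * ν * K0 ^ 2 * (F - 2 * η * E) :=
    mul_nonneg (by positivity) (by linarith)
  linarith

/-- The differential inequality in the window. -/
theorem window (h : IsSol ν T u p) (hν : 0 < ν) (hL : 1 ≤ L) {K0 K1 E : ℝ} (hK1 : 1 ≤ K1)
    (hK0 : 0 < K0) (hE : EE (uh u 0) ≤ E)
    (hb : 24 * Real.pi * Ck κ * (K1 * √(81 * K1 ^ 3 * E)) + 216 * Ck κ ^ 2 * C4 * ν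
      ≤ 2 * Real.pi ^ 2 * ν * K0 ^ 2) {t ρ β : ℝ} (ht : t ∈ Ioo 0 T)
    (hβ : act ν K1 L ρ (uh u t) ≤ β)
    (hF1 : 2 * psi κ L K0 ^ 2 * E ≤ FF κ L (uh u t)) (hF2 : FF κ L (uh u t) ≤ ν ^ 2) :
    -(8 * Real.pi ^ 2 * ν * ∑' k, nk2 k * (wt κ L k ^ 2 * e2 (uh u t) k))
        - 2 * (CI κ L (uh u t)).re ≤ (100 * Ck κ ^ 2 * β) * FF κ L (uh u t) := by
  have hL0 : 0 < L := by linarith
  have hI : t ∈ Ico 0 T := ⟨ht.1.le, ht.2⟩
  have hU := rap_uh h hI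
  have hdiv := div_uh h hI
  have h1 := deriv_le (κ := κ) h hν hL0 ht
  have hEt : EE (uh u t) ≤ E := (EE_le h hν hI).trans hE
  generalize uh u t = U at *
  have hNam0 : ∀ k, 0 ≤ (N k : ℝ) * am U k := fun k => mul_nonneg (by positivity) (am_nonneg U k)
  have hX := ind_le (A := {k : K3 | (N k : ℝ) < K1} ∪
      {k : K3 | K1 ≤ (N k : ℝ) ∧ (N k : ℝ) ≤ L ∧ (N k : ℝ) ≤ ρ})
    (B := {k : K3 | (N k : ℝ) < K1})
    (C := {k : K3 | K1 ≤ (N k : ℝ) ∧ (N k : ℝ) ≤ L ∧ (N k : ℝ) ≤ ρ})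
    subset_rfl hNam0 (summable_Nam hU)
  have hYsub : ({k : K3 | (N k : ℝ) < K1} ∪
      {k : K3 | K1 ≤ (N k : ℝ) ∧ (N k : ℝ) ≤ L ∧ (N k : ℝ) ≤ ρ})ᶜ
      ⊆ {k : K3 | K1 ≤ (N k : ℝ) ∧ (N k : ℝ) ≤ L ∧ ρ < (N k : ℝ)}
        ∪ {k : K3 | L < (N k : ℝ)} := by
    intro k hk
    rw [Set.mem_compl_iff, Set.mem_union, not_or] at hk
    by_cases h1 : L < (N k : ℝ)
    · exact Or.inr h1
    · refine Or.inl ⟨not_lt.1 hk.1, not_lt.1 h1, ?_⟩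
      by_contra h2
      exact hk.2 ⟨not_lt.1 hk.1, not_lt.1 h1, not_lt.1 h2⟩
  have hY := ind_le hYsub (fun k => am_nonneg U k) (summable_am hU)
  have hXlo : ∑' k, {k : K3 | (N k : ℝ) < K1}.indicator (fun k => (N k : ℝ) * am U k) k
      ≤ K1 * √(81 * K1 ^ 3 * E) := by
    refine (sum_low_N hU hK1).trans ?_
    gcongr
  have hYhi0 : 0 ≤ ∑' k, {k : K3 | L < (N k : ℝ)}.indicator (am U) k :=
    tsum_nonneg fun k => Set.indicator_nonneg (fun _ _ => am_nonneg U _) k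
  have hY0 : 0 ≤ ∑' k, ({k : K3 | (N k : ℝ) < K1} ∪
      {k : K3 | K1 ≤ (N k : ℝ) ∧ (N k : ℝ) ≤ L ∧ (N k : ℝ) ≤ ρ})ᶜ.indicator (am U) k :=
    tsum_nonneg fun k => Set.indicator_nonneg (fun _ _ => am_nonneg U _) k
  have hXS0 : 0 ≤ ∑' k, {k : K3 | K1 ≤ (N k : ℝ) ∧ (N k : ℝ) ≤ L ∧ (N k : ℝ) ≤ ρ}.indicator
      (fun k => (N k : ℝ) * am U k) k :=
    tsum_nonneg fun k => Set.indicator_nonneg (fun k _ => hNam0 k) k
  have h3 : FF κ L U ≤ psi κ L K0 ^ 2 * E + QQ κ L U / K0 ^ 2 := by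
    refine (FF_le (κ := κ) hL0 hU hK0).trans ?_
    gcongr
  exact (h1.trans (diff_ineq (κ := κ) hL0 hU hdiv hν _)).trans
    (algebra hν (one_le_Ck κ) C4_nonneg hK0 (FF_nonneg κ L U) hF2 hXS0 hY0 hYhi0 hb hX hXlo hY
      (sum_high hL0 hU) hβ h3 hF1)

/-- The a priori bound. -/
theorem core (h : IsSol ν T u p) (hν : 0 < ν) (hL : 1 ≤ L) {K0 K1 E : ℝ} (hK1 : 1 ≤ K1)
    (hK0 : 0 < K0) (hE : EE (uh u 0) ≤ E)
    (hb : 24 * Real.pi * Ck κ * (K1 * √(81 * K1 ^ 3 * E)) + 216 * Ck κ ^ 2 * C4 * ν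
      ≤ 2 * Real.pi ^ 2 * ν * K0 ^ 2)
    (hη : 2 * psi κ L K0 ^ 2 * E ≤ ν ^ 2 / (2 * L))
    (hF0 : FF κ L (uh u 0) ≤ ν ^ 2 / (2 * L)) {ρ β : ℝ → ℝ}
    (hβ : ∀ t ∈ Ioo 0 T, act ν K1 L (ρ t) (uh u t) ≤ β t)
    (hβi : IntegrableOn β (Ioo 0 T))
    (hβB : 100 * Ck κ ^ 2 * ∫ t in Ioo 0 T, β t ≤ Real.log L) {t : ℝ} (ht : t ∈ Ico 0 T) :
    FF κ L (uh u t) ≤ ν ^ 2 / 2 := by
  have hL0 : 0 < L := by linarith
  have hc0 : 0 ≤ 100 * Ck κ ^ 2 := by positivity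
  have hβ0 : ∀ s ∈ Ioo 0 T, 0 ≤ β s := fun s hs => (act_nonneg hν _ _ _ _).trans (hβ s hs)
  have hexp : ν ^ 2 / (2 * L) * Real.exp (Real.log L) = ν ^ 2 / 2 := by
    rw [Real.exp_log hL0]
    field_simp
  have hsub : Ioc 0 t ⊆ Ioo 0 T := fun s hs => ⟨hs.1, hs.2.trans_lt ht.2⟩
  have hgi : IntegrableOn (fun s => 100 * Ck κ ^ 2 * β s) (Icc 0 t) := by
    rw [integrableOn_Icc_iff_integrableOn_Ioc]
    exact (hβi.mono_set hsub).const_mul _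
  have key := gron_window (F := fun s => FF κ L (uh u s))
    (F' := fun s => -(8 * Real.pi ^ 2 * ν * ∑' k, nk2 k * (wt κ L k ^ 2 * e2 (uh u s) k))
        - 2 * (CI κ L (uh u s)).re) (g := fun s => 100 * Ck κ ^ 2 * β s)
    (A := ν ^ 2 / (2 * L)) (B := ν ^ 2) (Lg := Real.log L) ht.1 (by positivity) hF0
    (Real.log_nonneg hL) (by rw [hexp]; nlinarith [sq_nonneg ν, pow_pos hν 2])
    ((FF_continuousOn h hL0).mono fun s hs => ⟨hs.1, hs.2.trans_lt ht.2⟩)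
    (fun s hs => FF_hasDerivAt h hL0 ⟨hs.1, hs.2.trans ht.2⟩)
    (fun s hs => mul_nonneg hc0 (hβ0 s ⟨hs.1, hs.2.trans ht.2⟩)) hgi ?_ ?_
  · rw [hexp] at key
    exact key
  · rw [intervalIntegral.integral_of_le ht.1, integral_const_mul]
    refine le_trans (mul_le_mul_of_nonneg_left ?_ hc0) hβB
    refine setIntegral_mono_set hβi ?_ hsub.eventuallyLE
    rw [Filter.EventuallyLE, ae_restrict_iff' measurableSet_Ioo]
    exact Filter.Eventually.of_forall hβ0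
  · intro s hs hA hB
    have hsT : s ∈ Ioo 0 T := ⟨hs.1, hs.2.trans ht.2⟩
    exact window h hν hL hK1 hK0 hE hb hsT (hβ s hsT) (hη.trans hA) hB

theorem abs_le (h : IsSol ν T u p) (hν : 0 < ν) (hL : 1 ≤ L) {E : ℝ} (hE : EE (uh u 0) ≤ E)
    {t : ℝ} (ht : t ∈ Ico 0 T) (hF : FF κ L (uh u t) ≤ ν ^ 2 / 2) (x : V) (i : Fin 3) :
    |u t x i| ≤ √(81 * L ^ 3 * E) + √(3 * C4 * (ν ^ 2 / 2)) := by
  have hL0 : 0 < L := by linarith
  have hU := rap_uh h ht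
  have hC4 := C4_nonneg
  have h1 : S (uh u t i) x = ((u t x i : ℝ) : ℂ) := S_fr (h.sp ht i) x
  have h2 : |u t x i| = ‖S (uh u t i) x‖ := by rw [h1, Complex.norm_real, Real.norm_eq_abs]
  rw [h2]
  refine (norm_S_le (hU i).summable x).trans ?_
  have h3 : ∑' k, ‖uh u t i k‖ ≤ ∑' k, (Set.univ : Set K3).indicator (am (uh u t)) k := by
    simp only [Set.indicator_univ]
    refine Summable.tsum_le_tsum (fun k => ?_) (hU i).summable.norm (summable_am hU)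
    exact Finset.single_le_sum (f := fun i => ‖uh u t i k‖) (fun _ _ => norm_nonneg _)
      (Finset.mem_univ i)
  have h4 := ind_le (A := (Set.univ : Set K3)) (B := {k : K3 | (N k : ℝ) ≤ L})
    (C := {k : K3 | L < (N k : ℝ)}) (fun k _ => by
      rcases le_or_gt (N k : ℝ) L with h | h
      · exact Or.inl h
      · exact Or.inr h) (fun k => am_nonneg (uh u t) k) (summable_am hU)
  refine h3.trans (h4.trans (add_le_add ?_ ?_))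
  · refine (sum_low hU hL).trans ?_
    have := (EE_le h hν ht).trans hE
    gcongr
  · refine (sum_high (κ := κ) hL0 hU).trans ?_
    gcongr

end Pool.Agent.TH305.FB
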