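import Pool.Agent.TH305.FB.Dt

/-!
The balance of the weighted energy of a smooth periodic solution.
-/

set_option autoImplicit false

open MeasureTheory Set Filter Topology
open scoped ContDiff
open H459R3.NS

namespace Pool.Agent.TH305.FB

theorem fr_conj (f : V → ℝ) (k : K3) : fr f (-k) = (starRingEnd ℂ) (fr f k) := by
  unfold fr fc
  rw [← integral_conj]
  congr 1
  funext x
  rw [map_mul, Complex.conj_ofReal, neg_neg, ee_neg, Complex.conj_conj]

/-- The Fourier coefficients of the velocity. -/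
noncomputable def uh (u : ℝ → V → V) (t : ℝ) (i : Fin 3) : K3 → ℂ := fr (fun y => u t y i)

/-- The square of the Euclidean length of a frequency. -/
noncomputable def nk2 (k : K3) : ℝ := ∑ j, (k j : ℝ) ^ 2

theorem nk2_nonneg (k : K3) : 0 ≤ nk2 k := Finset.sum_nonneg fun _ _ => sq_nonneg _

theorem N_sq_le (k : K3) : (N k : ℝ) ^ 2 ≤ nk2 k := by
  have h := N_pow_le k 2
  simpa [nk2, sq_abs] using h

theorem nk2_le (k : K3) : nk2 k ≤ 3 * (N k : ℝ) ^ 2 := by
  unfold nk2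
  have h : ∀ j, (k j : ℝ) ^ 2 ≤ (N k : ℝ) ^ 2 := by
    intro j
    have h1 := (N_le_iff k (N k)).1 le_rfl j
    have h2 : |(k j : ℝ)| ≤ N k := by exact_mod_cast h1
    rw [← sq_abs (k j : ℝ)]
    gcongr
  rw [Fin.sum_univ_three]
  linarith [h 0, h 1, h 2]

theorem fr_lap {f : V → ℝ} (hf : SP f) (k : K3) :
    fr (lap f) k = -(4 * Real.pi ^ 2 * nk2 k : ℝ) * fr f k := by
  have h1 : fr (lap f) k = ∑ j, fr (pd j (pd j f)) k := by
    have := fr_sum (s := Finset.univ) (f := fun j => pd j (pd j f)) (fun j _ => (hf.pd j).pd j) k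
    rw [← this]
    rfl
  rw [h1]
  have h2 : ∀ j, fr (pd j (pd j f)) k = -(4 * Real.pi ^ 2 * (k j : ℝ) ^ 2 : ℝ) * fr f k := by
    intro j
    rw [fr_pd (hf.pd j), fr_pd hf]
    unfold D
    have hI : Complex.I * Complex.I = -1 := Complex.I_mul_I
    push_cast
    linear_combination (4 * (Real.pi : ℂ) ^ 2 * (k j : ℂ) ^ 2 * fr f k) * hI
  simp_rw [h2]
  rw [← Finset.sum_mul]
  congr 1
  unfold nk2
  push_cast
  rw [Finset.sum_neg_distrib, Finset.mul_sum]

theorem fr_lin {f g q : V → ℝ} (hf : SP f) (hg : SP g) (hq : SP q) (c : ℝ) (k : K3) :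
    fr (fun x => c * f x - g x - q x) k = c * fr f k - fr g k - fr q k := by
  unfold fr fc
  have i1 : IntegrableOn (fun x => ee (-k) x * (f x : ℂ)) cube :=
    integrableOn_cube ((ee_continuous _).mul (contDiff_ofReal hf.smooth).continuous)
  have i2 : IntegrableOn (fun x => ee (-k) x * (g x : ℂ)) cube :=
    integrableOn_cube ((ee_continuous _).mul (contDiff_ofReal hg.smooth).continuous)
  have i3 : IntegrableOn (fun x => ee (-k) x * (q x : ℂ)) cube :=
    integrableOn_cube ((ee_continuous _).mul (contDiff_ofReal hq.smooth).continuous)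
  have e : ∀ x, ee (-k) x * ((c * f x - g x - q x : ℝ) : ℂ)
      = c * (ee (-k) x * (f x : ℂ)) - ee (-k) x * (g x : ℂ) - ee (-k) x * (q x : ℂ) := by
    intro x
    push_cast
    ring
  simp_rw [e]
  have i1' : IntegrableOn (fun x => (c : ℂ) * (ee (-k) x * (f x : ℂ))) cube := i1.const_mul _
  have i12 : IntegrableOn (fun x => (c : ℂ) * (ee (-k) x * (f x : ℂ)) - ee (-k) x * (g x : ℂ))
    cube := i1'.sub i2
  rw [integral_sub i12 i3, integral_sub i1' i2, integral_const_mul]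

section

variable {ν T : ℝ} {u : ℝ → V → V} {p : ℝ → V → ℝ} {κ : ℕ} {L : ℝ}

theorem rap_uh (h : IsSol ν T u p) {t : ℝ} (ht : t ∈ Ico 0 T) (i : Fin 3) : Rap (uh u t i) :=
  rap_fr (h.sp ht i)

theorem div_uh (h : IsSol ν T u p) {t : ℝ} (ht : t ∈ Ico 0 T) (k : K3) :
    ∑ j, (k j : ℂ) * uh u t j k = 0 :=
  fr_div (v := fun i y => u t y i) (fun i => h.sp ht i) (h.divfree t ht) k

theorem fr_dt (h : IsSol ν T u p) {t : ℝ} (ht : t ∈ Ioo 0 T) (i : Fin 3) (k : K3) :
    fr (dt (fun s y => u s y i) t) k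
      = ν * (-(4 * Real.pi ^ 2 * nk2 k : ℝ) * uh u t i k)
        - fr (conv (fun i y => u t y i) i) k
        - 2 * Real.pi * Complex.I * (k i : ℂ) * fr (p t) k := by
  have hI : t ∈ Ico 0 T := ⟨ht.1.le, ht.2⟩
  have h1 : dt (fun s y => u s y i) t = fun x => ν * lap (fun y => u t y i) x
      - conv (fun i y => u t y i) i x - pd i (p t) x := funext fun x => h.dt_eq ht i x
  rw [h1, fr_lin (h.sp hI i).lap (sp_conv (fun i => h.sp hI i) i) ((h.sp_p hI).pd i),
    fr_lap (h.sp hI i), fr_pd (h.sp_p hI)]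
  rfl

theorem re_sum (h : IsSol ν T u p) {t : ℝ} (ht : t ∈ Ioo 0 T) (k : K3) :
    ∑ i, (2 * ((starRingEnd ℂ) (uh u t i k) * fr (dt (fun s y => u s y i) t) k).re)
      = -(8 * Real.pi ^ 2 * ν * (nk2 k * e2 (uh u t) k))
        - 2 * (∑ i, (starRingEnd ℂ) (uh u t i k) * fr (conv (fun i y => u t y i) i) k).re := by
  have hI : t ∈ Ico 0 T := ⟨ht.1.le, ht.2⟩
  have hdiv := div_uh h hI k
  have hdiv' : ∑ j, (k j : ℂ) * (starRingEnd ℂ) (uh u t j k) = 0 := by
    have := congrArg (starRingEnd ℂ) hdiv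
    rw [map_sum, map_zero] at this
    simpa using this
  have h1 : ∑ i, (starRingEnd ℂ) (uh u t i k) * fr (dt (fun s y => u s y i) t) k
      = -((4 * Real.pi ^ 2 * ν * (nk2 k * e2 (uh u t) k) : ℝ) : ℂ)
        - ∑ i, (starRingEnd ℂ) (uh u t i k) * fr (conv (fun i y => u t y i) i) k := by
    have h2 : ∀ i, (starRingEnd ℂ) (uh u t i k) * fr (dt (fun s y => u s y i) t) k
        = -((4 * Real.pi ^ 2 * ν * nk2 k : ℝ) : ℂ) * ((‖uh u t i k‖ ^ 2 : ℝ) : ℂ)
        - (starRingEnd ℂ) (uh u t i k) * fr (conv (fun i y => u t y i) i) k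
        - 2 * Real.pi * Complex.I * fr (p t) k * ((k i : ℂ) * (starRingEnd ℂ) (uh u t i k)) := by
      intro i
      rw [fr_dt h ht]
      have h3 : (starRingEnd ℂ) (uh u t i k) * uh u t i k = ((‖uh u t i k‖ ^ 2 : ℝ) : ℂ) := by
        rw [mul_comm, Complex.mul_conj, Complex.normSq_eq_norm_sq]
      rw [← h3]
      push_cast
      ring
    simp_rw [h2]
    rw [Finset.sum_sub_distrib, Finset.sum_sub_distrib, ← Finset.mul_sum, ← Finset.mul_sum, hdiv',
      mul_zero, sub_zero]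
    congr 1
    unfold e2
    push_cast
    ring
  rw [← Finset.mul_sum, ← Complex.re_sum, h1, Complex.sub_re, Complex.neg_re, Complex.ofReal_re]
  ring

/-- The convection term. -/
theorem hasSum_conv (h : IsSol ν T u p) (hL : 0 < L) {t : ℝ} (ht : t ∈ Ico 0 T) (i : Fin 3) :
    HasSum (fun k => ((wt κ L k ^ 2 : ℝ) : ℂ) *
      ((starRingEnd ℂ) (uh u t i k) * fr (conv (fun i y => u t y i) i) k))
      (∑ j, Tri (uh u t j) (D j (uh u t i))
        (fun k => (wt κ L k : ℂ) * ((wt κ L k : ℂ) * uh u t i k))) := by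
  have hR := rap_uh h ht
  have hc : Rap (fun k => (wt κ L k : ℂ) * ((wt κ L k : ℂ) * uh u t i k)) :=
    Rap.wtmul hL (Rap.wtmul hL (hR i))
  have hsp : ∀ i, SP (fun y => u t y i) := fun i => h.sp ht i
  have hcs := hc.summable
  set c : K3 → ℂ := fun k => (wt κ L k : ℂ) * ((wt κ L k : ℂ) * uh u t i k) with hcdef
  have hcont : Continuous fun x : V => ((conv (fun i y => u t y i) i x : ℝ) : ℂ) :=
    (contDiff_ofReal (sp_conv hsp i).smooth).continuous
  have h1 := integral_S_mul hcs hcont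
  have e1 : ∀ k, c k * ∫ x in cube, ee k x * ((conv (fun i y => u t y i) i x : ℝ) : ℂ)
      = c k * fr (conv (fun i y => u t y i) i) (-k) := by
    intro k
    unfold fr fc
    rw [neg_neg]
  simp_rw [e1] at h1
  have h2 := (Equiv.neg K3).hasSum_iff.2 h1
  have e2' : ((fun k => c k * fr (conv (fun i y => u t y i) i) (-k)) ∘ (Equiv.neg K3))
      = fun k => ((wt κ L k ^ 2 : ℝ) : ℂ) *
      ((starRingEnd ℂ) (uh u t i k) * fr (conv (fun i y => u t y i) i) k) := by
    funext k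
    simp only [Function.comp_apply, Equiv.neg_apply, neg_neg, hcdef]
    rw [wt_neg, uh, fr_conj]
    push_cast
    ring
  rw [e2'] at h2
  have e3 : ∑ j, Tri (uh u t j) (D j (uh u t i)) c
      = ∫ x in cube, S c x * ((conv (fun i y => u t y i) i x : ℝ) : ℂ) := by
    have e4 : ∀ j, Tri (uh u t j) (D j (uh u t i)) c
        = ∫ x in cube, S c x * ((u t x j * pd j (fun y => u t y i) x : ℝ) : ℂ) := by
      intro j
      rw [tri_eq (hR j).summable ((hR i).D j).summable hcs]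
      congr 1
      funext x
      have a1 : S (uh u t j) x = ((u t x j : ℝ) : ℂ) := S_fr (hsp j) x
      have a2 : S (D j (uh u t i)) x = ((pd j (fun y => u t y i) x : ℝ) : ℂ) := by
        rw [uh, ← fr_pd (hsp i)]
        exact S_fr ((hsp i).pd j) x
      rw [a1, a2]
      push_cast
      ring
    simp_rw [e4]
    rw [← integral_finsetSum]
    · congr 1
      funext x
      rw [← Finset.mul_sum]
      unfold conv
      push_cast
      rfl
    · intro j _
      exact integrableOn_cube ((S_continuous hcs).mul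
        (contDiff_ofReal ((hsp j).mul ((hsp i).pd j)).smooth).continuous)
  rw [e3]
  exact h2

theorem hasSum_CI (h : IsSol ν T u p) (hL : 0 < L) {t : ℝ} (ht : t ∈ Ico 0 T) :
    HasSum (fun k => ((wt κ L k ^ 2 : ℝ) : ℂ) *
      ∑ i, (starRingEnd ℂ) (uh u t i k) * fr (conv (fun i y => u t y i) i) k)
      (CI κ L (uh u t)) := by
  unfold CI
  have h1 := hasSum_sum (s := Finset.univ) fun i _ => hasSum_conv (κ := κ) h hL ht i
  simp_rw [Finset.mul_sum]
  exact h1

theorem summable_W (h : IsSol ν T u p) (hL : 0 < L) {t : ℝ} (ht : t ∈ Ico 0 T) (i : Fin 3) :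
    Summable fun k => wt κ L k ^ 2 * ‖uh u t i k‖ ^ 2 := by
  have h1 := summable_sq (Rap.wtmul (κ := κ) hL (rap_uh h ht i)).summable
  refine h1.congr fun k => ?_
  rw [norm_mul, Complex.norm_real, Real.norm_eq_abs, mul_pow, sq_abs]

theorem FF_eq (h : IsSol ν T u p) (hL : 0 < L) {t : ℝ} (ht : t ∈ Ico 0 T) :
    FF κ L (uh u t) = ∑ i, ∑' k, wt κ L k ^ 2 * ‖uh u t i k‖ ^ 2 := by
  unfold FF e2
  rw [← Summable.tsum_finsetSum fun i _ => summable_W h hL ht i]
  exact tsum_congr fun k => Finset.mul_sum _ _ _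

theorem wt_sq_le (hL : 0 < L) (k : K3) : wt κ L k ^ 2 ≤ (N k : ℝ) ^ 4 := by
  have h1 := wt_nonneg (κ := κ) hL k
  have h2 := wt_le (κ := κ) hL k
  calc wt κ L k ^ 2 ≤ ((N k : ℝ) ^ 2) ^ 2 := by gcongr
    _ = _ := by ring

theorem FF_continuousOn (h : IsSol ν T u p) (hL : 0 < L) :
    ContinuousOn (fun t => FF κ L (uh u t)) (Ico 0 T) := by
  have h1 : ContinuousOn (fun t => ∑ i, ∑' k, wt κ L k ^ 2 * ‖fr (fun y => u t y i) k‖ ^ 2)
      (Ico 0 T) := by
    refine continuousOn_finsetSum _ fun i _ => ?_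
    exact continuousOn_tsum_fr (f := fun t y => u t y i) (h.smooth_c i)
      (fun t ht => (h.sp ht i).per) (fun k => sq_nonneg _) (fun k => wt_sq_le hL k)
  exact h1.congr fun t ht => FF_eq h hL ht

theorem FF_hasDerivAt (h : IsSol ν T u p) (hL : 0 < L) {t : ℝ} (ht : t ∈ Ioo 0 T) :
    HasDerivAt (fun s => FF κ L (uh u s))
      (-(8 * Real.pi ^ 2 * ν * ∑' k, nk2 k * (wt κ L k ^ 2 * e2 (uh u t) k))
        - 2 * (CI κ L (uh u t)).re) t := by
  have hI : t ∈ Ico 0 T := ⟨ht.1.le, ht.2⟩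
  have h1 : HasDerivAt (fun s => ∑ i, ∑' k, wt κ L k ^ 2 * ‖fr (fun y => u s y i) k‖ ^ 2)
      (∑ i, ∑' k, wt κ L k ^ 2 * (2 * ((starRingEnd ℂ) (uh u t i k)
        * fr (dt (fun s y => u s y i) t) k).re)) t :=
    HasDerivAt.fun_sum fun i _ => hasDerivAt_tsum_fr (f := fun s y => u s y i) (h.smooth_c i)
      (fun t ht => (h.sp ht i).per) (fun k => sq_nonneg _) (fun k => wt_sq_le hL k) ht
  have h2 : HasDerivAt (fun s => FF κ L (uh u s))
      (∑ i, ∑' k, wt κ L k ^ 2 * (2 * ((starRingEnd ℂ) (uh u t i k)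
        * fr (dt (fun s y => u s y i) t) k).re)) t := by
    refine h1.congr_of_eventuallyEq ?_
    filter_upwards [Ioo_mem_nhds ht.1 ht.2] with s hs
    exact FF_eq h hL ⟨hs.1.le, hs.2⟩
  refine h2.congr_deriv ?_
  have hR := rap_uh h hI
  have hsum : ∀ i, Summable fun k => wt κ L k ^ 2 * (2 * ((starRingEnd ℂ) (uh u t i k)
        * fr (dt (fun s y => u s y i) t) k).re) := by
    intro i
    obtain ⟨C, hC⟩ := norm_fr_le (h.sp_dt ht i)
    have hC0 : 0 ≤ C := (norm_nonneg _).trans (hC 0)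
    refine Summable.of_norm_bounded (((hR i) 4).mul_left (2 * C)) fun k => ?_
    have h3 : |((starRingEnd ℂ) (uh u t i k) * fr (dt (fun s y => u s y i) t) k).re|
        ≤ ‖uh u t i k‖ * C := by
      refine (Complex.abs_re_le_norm _).trans ?_
      rw [norm_mul, RCLike.norm_conj]
      exact mul_le_mul_of_nonneg_left (hC k) (norm_nonneg _)
    rw [Real.norm_eq_abs, abs_mul, abs_mul, abs_of_nonneg (sq_nonneg _), abs_two]
    calc wt κ L k ^ 2 * (2 * |((starRingEnd ℂ) (uh u t i k)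
          * fr (dt (fun s y => u s y i) t) k).re|)
        ≤ (N k : ℝ) ^ 4 * (2 * (‖uh u t i k‖ * C)) :=
          mul_le_mul (wt_sq_le hL k) (by linarith) (by positivity) (by positivity)
      _ = _ := by ring
  rw [← Summable.tsum_finsetSum fun i _ => hsum i]
  simp_rw [← Finset.mul_sum]
  have hre := Complex.hasSum_re (hasSum_CI (κ := κ) h hL hI)
  have hA : Summable fun k => nk2 k * (wt κ L k ^ 2 * e2 (uh u t) k) := by
    have h3 := (summable_QQ (κ := κ) (U := uh u t) hL hR 1).mul_left 3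
    refine Summable.of_nonneg_of_le (fun k => mul_nonneg (nk2_nonneg k)
      (mul_nonneg (sq_nonneg _) (e2_nonneg _ k))) (fun k => ?_) h3
    have := mul_le_mul_of_nonneg_right (nk2_le k)
      (mul_nonneg (sq_nonneg (wt κ L k)) (e2_nonneg (uh u t) k))
    refine this.trans (le_of_eq ?_)
    ring
  have h5 := (hA.hasSum.mul_left (-(8 * Real.pi ^ 2 * ν))).sub (hre.mul_left 2)
  have h6 : (fun k => -(8 * Real.pi ^ 2 * ν) * (nk2 k * (wt κ L k ^ 2 * e2 (uh u t) k))
      - 2 * (((wt κ L k ^ 2 : ℝ) : ℂ) *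
      ∑ i, (starRingEnd ℂ) (uh u t i k) * fr (conv (fun i y => u t y i) i) k).re)
      = fun k => wt κ L k ^ 2 * ∑ i, (2 * ((starRingEnd ℂ) (uh u t i k)
        * fr (dt (fun s y => u s y i) t) k).re) := by
    funext k
    rw [re_sum h ht k, Complex.re_ofReal_mul]
    ring
  rw [h6] at h5
  have h7 : ∀ k, wt κ L k ^ 2 * ∑ i, (2 * ((starRingEnd ℂ) (uh u t i k)
        * fr (dt (fun s y => u s y i) t) k).re)
      = wt κ L k ^ 2 * (2 * ∑ i, ((starRingEnd ℂ) (uh u t i k)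
        * fr (dt (fun s y => u s y i) t) k).re) := fun k => by rw [← Finset.mul_sum]
  simp_rw [h7] at h5
  rw [h5.tsum_eq]
  ring

/-- The weighted energy inequality. -/
theorem deriv_le (h : IsSol ν T u p) (hν : 0 < ν) (hL : 0 < L) {t : ℝ} (ht : t ∈ Ioo 0 T) :
    -(8 * Real.pi ^ 2 * ν * ∑' k, nk2 k * (wt κ L k ^ 2 * e2 (uh u t) k))
        - 2 * (CI κ L (uh u t)).re
      ≤ -(8 * Real.pi ^ 2 * ν * QQ κ L (uh u t)) + 2 * ‖CI κ L (uh u t)‖ := by
  have hI : t ∈ Ico 0 T := ⟨ht.1.le, ht.2⟩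
  have hR := rap_uh h hI
  have hA : Summable fun k => nk2 k * (wt κ L k ^ 2 * e2 (uh u t) k) := by
    have h3 := (summable_QQ (κ := κ) (U := uh u t) hL hR 1).mul_left 3
    refine Summable.of_nonneg_of_le (fun k => mul_nonneg (nk2_nonneg k)
      (mul_nonneg (sq_nonneg _) (e2_nonneg _ k))) (fun k => ?_) h3
    have := mul_le_mul_of_nonneg_right (nk2_le k)
      (mul_nonneg (sq_nonneg (wt κ L k)) (e2_nonneg (uh u t) k))
    refine this.trans (le_of_eq ?_)
    ring
  have h1 : QQ κ L (uh u t) ≤ ∑' k, nk2 k * (wt κ L k ^ 2 * e2 (uh u t) k) := by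
    unfold QQ
    refine Summable.tsum_le_tsum (fun k => ?_) ?_ hA
    · exact mul_le_mul_of_nonneg_right (N_sq_le k)
        (mul_nonneg (sq_nonneg (wt κ L k)) (e2_nonneg (uh u t) k))
    · simpa using summable_QQ (κ := κ) (U := uh u t) hL hR 1
  have h2 : -(CI κ L (uh u t)).re ≤ ‖CI κ L (uh u t)‖ :=
    (neg_le_abs _).trans (Complex.abs_re_le_norm _)
  have h3 : 0 ≤ 8 * Real.pi ^ 2 * ν := by positivity
  have h4 := mul_le_mul_of_nonneg_left h1 h3
  linarith

end

end Pool.Agent.TH305.FB
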