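import Pool.Agent.TH305.FB.NSf
import Pool.Agent.H459R3.NS.High2

/-!
Bounds of sums over low and high frequencies, and the differential inequality of the weighted
energy.
-/

set_option autoImplicit false

open MeasureTheory Set Filter Topology
open scoped ContDiff
open H459R3.NS

namespace Pool.Agent.TH305.FB

variable {κ : ℕ} {L : ℝ} {U : Fin 3 → K3 → ℂ}

theorem tsum_mul_le_sqrt {ι : Type*} {f g : ι → ℝ}
    (hfg : Summable fun i => f i * g i) (hf : Summable fun i => f i ^ 2)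
    (hg : Summable fun i => g i ^ 2) :
    ∑' i, f i * g i ≤ √(∑' i, f i ^ 2) * √(∑' i, g i ^ 2) := by
  refine hfg.tsum_le_of_sum_le fun s => ?_
  refine (Real.sum_mul_le_sqrt_mul_sqrt s f g).trans ?_
  have h1 : √(∑ i ∈ s, f i ^ 2) ≤ √(∑' i, f i ^ 2) :=
    Real.sqrt_le_sqrt (hf.sum_le_tsum s (fun _ _ => sq_nonneg _))
  have h2 : √(∑ i ∈ s, g i ^ 2) ≤ √(∑' i, g i ^ 2) :=
    Real.sqrt_le_sqrt (hg.sum_le_tsum s (fun _ _ => sq_nonneg _))
  exact mul_le_mul h1 h2 (Real.sqrt_nonneg _) (Real.sqrt_nonneg _)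

/-- The sum of the squares of all coefficients. -/
noncomputable def EE (U : Fin 3 → K3 → ℂ) : ℝ := ∑' k, e2 U k

theorem EE_nonneg (U : Fin 3 → K3 → ℂ) : 0 ≤ EE U := tsum_nonneg fun k => e2_nonneg U k

theorem summable_e2 (hU : ∀ i, Rap (U i)) : Summable (e2 U) := by
  unfold e2
  exact summable_sum fun i _ => summable_sq (hU i).summable

theorem summable_am_sq (hU : ∀ i, Rap (U i)) : Summable fun k => am U k ^ 2 :=
  summable_sq_real (fun k => am_nonneg U k) (summable_am hU)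

/-- The box of frequencies. -/
noncomputable def box (n : ℕ) : Finset K3 := Finset.Icc (fun _ => -(n : ℤ)) (fun _ => (n : ℤ))

theorem mem_box {n : ℕ} {k : K3} : k ∈ box n ↔ N k ≤ n := by
  unfold box
  rw [Finset.mem_Icc, Pi.le_def, Pi.le_def, N_le_iff, ← forall_and]
  exact forall_congr' fun j => by rw [abs_le]

theorem card_box (n : ℕ) : (box n).card = (2 * n + 1) ^ 3 := by
  unfold box
  rw [Pi.card_Icc]
  simp only [Int.card_Icc, Finset.prod_const, Finset.card_univ, Fintype.card_fin]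
  congr 1
  omega

theorem sum_low (hU : ∀ i, Rap (U i)) {K : ℝ} (hK : 1 ≤ K) :
    ∑' k, {k : K3 | (N k : ℝ) ≤ K}.indicator (am U) k ≤ √(81 * K ^ 3 * EE U) := by
  set n := ⌊K⌋₊ with hn
  have hK0 : 0 ≤ K := by linarith
  have hnK : (n : ℝ) ≤ K := Nat.floor_le hK0
  have h1 : ∑' k, {k : K3 | (N k : ℝ) ≤ K}.indicator (am U) k
      = ∑ k ∈ box n, {k : K3 | (N k : ℝ) ≤ K}.indicator (am U) k := by
    refine tsum_eq_sum fun k hk => ?_
    rw [mem_box] at hk
    refine Set.indicator_of_notMem (fun h => hk ?_) _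
    exact Nat.le_floor h
  have h2 : ∑ k ∈ box n, {k : K3 | (N k : ℝ) ≤ K}.indicator (am U) k
      ≤ ∑ k ∈ box n, 1 * am U k := by
    refine Finset.sum_le_sum fun k _ => ?_
    rw [one_mul]
    exact Set.indicator_le_self' (fun _ _ => am_nonneg U _) k
  have h3 := Real.sum_mul_le_sqrt_mul_sqrt (box n) (fun _ => (1 : ℝ)) (am U)
  have h4 : ∑ k ∈ box n, ((1 : ℝ)) ^ 2 ≤ 27 * K ^ 3 := by
    rw [one_pow, Finset.sum_const, card_box, nsmul_eq_mul, mul_one]
    push_cast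
    calc (2 * (n : ℝ) + 1) ^ 3 ≤ (2 * K + K) ^ 3 := by gcongr
      _ = 27 * K ^ 3 := by ring
  have h5 : ∑ k ∈ box n, am U k ^ 2 ≤ 3 * EE U := by
    have h6 : ∑ k ∈ box n, am U k ^ 2 ≤ ∑ k ∈ box n, 3 * e2 U k :=
      Finset.sum_le_sum fun k _ => am_sq_le U k
    refine h6.trans ?_
    rw [← Finset.mul_sum]
    exact mul_le_mul_of_nonneg_left
      ((summable_e2 hU).sum_le_tsum _ fun k _ => e2_nonneg U k) (by norm_num)
  rw [h1]
  refine (h2.trans h3).trans ?_
  rw [← Real.sqrt_mul (Finset.sum_nonneg fun _ _ => by positivity)]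
  refine Real.sqrt_le_sqrt ?_
  calc (∑ k ∈ box n, ((1 : ℝ)) ^ 2) * ∑ k ∈ box n, am U k ^ 2
      ≤ (27 * K ^ 3) * (3 * EE U) :=
        mul_le_mul h4 h5 (Finset.sum_nonneg fun _ _ => sq_nonneg _) (by positivity)
    _ = _ := by ring

theorem sum_low_N (hU : ∀ i, Rap (U i)) {K : ℝ} (hK : 1 ≤ K) :
    ∑' k, {k : K3 | (N k : ℝ) < K}.indicator (fun k => (N k : ℝ) * am U k) k
      ≤ K * √(81 * K ^ 3 * EE U) := by
  refine le_trans ?_ (mul_le_mul_of_nonneg_left (sum_low hU hK) (by linarith))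
  rw [← tsum_mul_left]
  refine Summable.tsum_le_tsum (fun k => ?_) ((summable_Nam hU).indicator _)
    (((summable_am hU).indicator _).mul_left K)
  by_cases hk : (N k : ℝ) < K
  · rw [Set.indicator_of_mem (show k ∈ {k : K3 | (N k : ℝ) < K} from hk),
      Set.indicator_of_mem (show k ∈ {k : K3 | (N k : ℝ) ≤ K} from hk.le)]
    exact mul_le_mul_of_nonneg_right hk.le (am_nonneg U k)
  · rw [Set.indicator_of_notMem (show k ∉ {k : K3 | (N k : ℝ) < K} from hk)]
    exact mul_nonneg (by linarith) (Set.indicator_nonneg (fun _ _ => am_nonneg U _) k)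

theorem summable_w2e2 (hL : 0 < L) (hU : ∀ i, Rap (U i)) :
    Summable fun k => wt κ L k ^ 2 * e2 U k := by
  have := summable_QQ (κ := κ) hL hU 0
  simpa using this

theorem FF_nonneg (κ : ℕ) (L : ℝ) (U : Fin 3 → K3 → ℂ) : 0 ≤ FF κ L U :=
  tsum_nonneg fun k => mul_nonneg (sq_nonneg _) (e2_nonneg U k)

theorem sum_high (hL : 0 < L) (hU : ∀ i, Rap (U i)) :
    ∑' k, {k : K3 | L < (N k : ℝ)}.indicator (am U) k ≤ √(3 * C4 * FF κ L U) := by
  set f : K3 → ℝ := fun k => if k = 0 then 0 else 1 / (N k : ℝ) ^ 2 with hf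
  set g : K3 → ℝ := {k : K3 | L < (N k : ℝ)}.indicator (fun k => (N k : ℝ) ^ 2 * am U k) with hg
  have hf2 : (fun k => f k ^ 2) = fun k => if k = 0 then (0 : ℝ) else 1 / (N k : ℝ) ^ 4 := by
    funext k
    simp only [hf]
    split_ifs
    · norm_num
    · rw [div_pow, one_pow, ← pow_mul]
  have hfg : (fun k => f k * g k) = {k : K3 | L < (N k : ℝ)}.indicator (am U) := by
    funext k
    simp only [hf, hg]
    by_cases hk : L < (N k : ℝ)
    · rw [Set.indicator_of_mem (show k ∈ {k : K3 | L < (N k : ℝ)} from hk),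
        Set.indicator_of_mem (show k ∈ {k : K3 | L < (N k : ℝ)} from hk)]
      have hN : (0 : ℝ) < N k := hL.trans hk
      have hk0 : k ≠ 0 := by
        rintro rfl
        have : N (0 : K3) = 0 := by simp [N]
        rw [this] at hN
        simp at hN
      rw [if_neg hk0]
      field_simp
    · rw [Set.indicator_of_notMem (show k ∉ {k : K3 | L < (N k : ℝ)} from hk),
        Set.indicator_of_notMem (show k ∉ {k : K3 | L < (N k : ℝ)} from hk), mul_zero]
  have hle : ∀ k, g k ^ 2 ≤ 3 * (wt κ L k ^ 2 * e2 U k) := by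
    intro k
    simp only [hg]
    by_cases hk : L < (N k : ℝ)
    · rw [Set.indicator_of_mem (show k ∈ {k : K3 | L < (N k : ℝ)} from hk)]
      have hw : wt κ L k = (N k : ℝ) ^ 2 := psi_of_le hL hk.le
      rw [hw, mul_pow]
      have := mul_le_mul_of_nonneg_left (am_sq_le U k) (sq_nonneg ((N k : ℝ) ^ 2))
      linarith
    · rw [Set.indicator_of_notMem (show k ∉ {k : K3 | L < (N k : ℝ)} from hk)]
      have := mul_nonneg (sq_nonneg (wt κ L k)) (e2_nonneg U k)
      have h0 : (0 : ℝ) ^ 2 = 0 := by norm_num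
      rw [h0]
      linarith
  have hs := (summable_w2e2 (κ := κ) hL hU).mul_left 3
  have hgs : Summable fun k => g k ^ 2 :=
    Summable.of_nonneg_of_le (fun k => sq_nonneg _) hle hs
  have h1 := tsum_mul_le_sqrt (f := f) (g := g) (by rw [hfg]; exact (summable_am hU).indicator _)
    (by rw [hf2]; exact summable_N4) hgs
  have h2 : ∑' k, f k ^ 2 = C4 := by rw [hf2]; rfl
  have h3 : ∑' k, g k ^ 2 ≤ 3 * FF κ L U := by
    unfold FF
    rw [← tsum_mul_left]
    exact Summable.tsum_le_tsum hle hgs hs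
  have h4 : ∑' k, {k : K3 | L < (N k : ℝ)}.indicator (am U) k = ∑' k, f k * g k := by rw [hfg]
  rw [h4]
  refine h1.trans ?_
  rw [h2, ← Real.sqrt_mul C4_nonneg]
  refine Real.sqrt_le_sqrt ?_
  calc C4 * ∑' k, g k ^ 2 ≤ C4 * (3 * FF κ L U) := mul_le_mul_of_nonneg_left h3 C4_nonneg
    _ = _ := by ring

/-- The lower bound of the dissipation. -/
theorem FF_le (hL : 0 < L) (hU : ∀ i, Rap (U i)) {K : ℝ} (hK : 0 < K) :
    FF κ L U ≤ psi κ L K ^ 2 * EE U + QQ κ L U / K ^ 2 := by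
  have hs1 := (summable_e2 hU).mul_left (psi κ L K ^ 2)
  have hs2 : Summable fun k => (N k : ℝ) ^ 2 * (wt κ L k ^ 2 * e2 U k) := by
    simpa using summable_QQ (κ := κ) hL hU 1
  have hs3 := hs2.mul_left (1 / K ^ 2)
  unfold FF EE QQ
  rw [div_eq_mul_one_div, mul_comm (∑' k, (N k : ℝ) ^ 2 * (wt κ L k ^ 2 * e2 U k)),
    ← tsum_mul_left, ← tsum_mul_left, ← hs1.tsum_add hs3]
  refine Summable.tsum_le_tsum (fun k => ?_) (summable_w2e2 hL hU) (hs1.add hs3)
  have he := e2_nonneg U k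
  rcases le_total (N k : ℝ) K with h | h
  · have h1 : wt κ L k ≤ psi κ L K := psi_mono hL (by positivity) h
    have h2 := wt_nonneg (κ := κ) hL k
    have h3 : wt κ L k ^ 2 ≤ psi κ L K ^ 2 := by gcongr
    have h4 := mul_le_mul_of_nonneg_right h3 he
    have h5 : 0 ≤ 1 / K ^ 2 * ((N k : ℝ) ^ 2 * (wt κ L k ^ 2 * e2 U k)) := by positivity
    linarith
  · have h1 : 1 ≤ 1 / K ^ 2 * (N k : ℝ) ^ 2 := by
      rw [one_div, inv_mul_eq_div, le_div_iff₀ (by positivity), one_mul]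
      gcongr
    have h2 : 0 ≤ wt κ L k ^ 2 * e2 U k := by positivity
    have h3 := mul_le_mul_of_nonneg_right h1 h2
    have h4 : 0 ≤ psi κ L K ^ 2 * e2 U k := by positivity
    calc wt κ L k ^ 2 * e2 U k ≤ 1 / K ^ 2 * (N k : ℝ) ^ 2 * (wt κ L k ^ 2 * e2 U k) := by
          linarith
      _ ≤ _ := by rw [mul_assoc]; linarith

theorem ind_le {A B C : Set K3} (h : A ⊆ B ∪ C) {f : K3 → ℝ} (hf0 : ∀ k, 0 ≤ f k)
    (hf : Summable f) :
    ∑' k, A.indicator f k ≤ (∑' k, B.indicator f k) + ∑' k, C.indicator f k := by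
  rw [← (hf.indicator B).tsum_add (hf.indicator C)]
  refine Summable.tsum_le_tsum (fun k => ?_) (hf.indicator A)
    ((hf.indicator B).add (hf.indicator C))
  have hB : 0 ≤ B.indicator f k := Set.indicator_nonneg (fun _ _ => hf0 _) k
  have hC : 0 ≤ C.indicator f k := Set.indicator_nonneg (fun _ _ => hf0 _) k
  by_cases hk : k ∈ A
  · rw [Set.indicator_of_mem hk]
    rcases h hk with h1 | h1
    · rw [Set.indicator_of_mem h1]; linarith
    · rw [Set.indicator_of_mem h1]; linarith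
  · rw [Set.indicator_of_notMem hk]
    linarith

theorem diff_ineq (hL : 0 < L) (hU : ∀ i, Rap (U i))
    (hdiv : ∀ k, ∑ j, (k j : ℂ) * U j k = 0) {ν : ℝ} (hν : 0 < ν) (A : Set K3) :
    -(8 * Real.pi ^ 2 * ν * QQ κ L U) + 2 * ‖CI κ L U‖
      ≤ -(4 * Real.pi ^ 2 * ν * QQ κ L U)
        + 24 * Real.pi * Ck κ * (∑' k, A.indicator (fun k => (N k : ℝ) * am U k) k) * FF κ L U
        + 36 * Ck κ ^ 2 * (∑' k, Aᶜ.indicator (am U) k) ^ 2 * FF κ L U / ν := by
  have hc : 0 < Ck κ := lt_of_lt_of_le one_pos (one_le_Ck κ)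
  have hpi := Real.pi_pos
  have hQ : 0 ≤ QQ κ L U := tsum_nonneg fun k =>
    mul_nonneg (sq_nonneg _) (mul_nonneg (sq_nonneg _) (e2_nonneg U k))
  have hF := FF_nonneg κ L U
  have hY0 : 0 ≤ ∑' k, Aᶜ.indicator (am U) k :=
    tsum_nonneg fun k => Set.indicator_nonneg (fun k _ => am_nonneg U k) k
  have key := fun (lam : ℝ) (hl : 0 < lam) => norm_CI_le3 (κ := κ) hL hU hdiv A hl
  generalize (∑' k, A.indicator (fun k => (N k : ℝ) * am U k) k) = X at *
  generalize (∑' k, Aᶜ.indicator (am U) k) = Y at *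
  rcases hY0.eq_or_lt with h0 | h0
  · have h1 := key 1 one_pos
    rw [← h0] at h1 ⊢
    have h2 : 0 ≤ Real.pi ^ 2 * ν * QQ κ L U := by positivity
    have e : 36 * Ck κ ^ 2 * (0 : ℝ) ^ 2 * FF κ L U / ν = 0 := by simp
    rw [e]
    nlinarith
  · have hlam : 0 < Real.pi * ν / (3 * Ck κ * Y) := by positivity
    have h1 := key _ hlam
    have e1 : 12 * Real.pi * Ck κ * (X * FF κ L U + Y * (Real.pi * ν / (3 * Ck κ * Y) / 2 *
        QQ κ L U + FF κ L U / (2 * (Real.pi * ν / (3 * Ck κ * Y)))))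
        = 12 * Real.pi * Ck κ * X * FF κ L U + 2 * Real.pi ^ 2 * ν * QQ κ L U
          + 18 * Ck κ ^ 2 * Y ^ 2 * FF κ L U / ν := by
      field_simp
      ring
    rw [e1] at h1
    have e2 : 36 * Ck κ ^ 2 * Y ^ 2 * FF κ L U / ν = 2 * (18 * Ck κ ^ 2 * Y ^ 2 * FF κ L U / ν) := by
      ring
    rw [e2]
    linarith

end Pool.Agent.TH305.FB
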