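import Pool.Agent.TH305.FB.TriB

/-!
The bound of the weighted convection form by a set of frequencies.
-/

set_option autoImplicit false

open H459R3.NS

namespace Pool.Agent.TH305.FB

variable {κ : ℕ} {L : ℝ} {U : Fin 3 → K3 → ℂ}

/-- The weighted size of a coefficient. -/
noncomputable def bw (κ : ℕ) (L : ℝ) (U : Fin 3 → K3 → ℂ) (k : K3) : ℝ := wt κ L k * am U k

theorem bw_nonneg (hL : 0 < L) (k : K3) : 0 ≤ bw κ L U k :=
  mul_nonneg (wt_nonneg hL k) (am_nonneg U k)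

theorem bw_le (hL : 0 < L) (k : K3) : bw κ L U k ≤ (N k : ℝ) ^ 2 * am U k :=
  mul_le_mul_of_nonneg_right (wt_le hL k) (am_nonneg U k)

theorem summable_bw_pow (hL : 0 < L) (hU : ∀ i, Rap (U i)) (n : ℕ) :
    Summable fun k => (N k : ℝ) ^ n * bw κ L U k := by
  refine Summable.of_nonneg_of_le (fun k => mul_nonneg (by positivity) (bw_nonneg hL k))
    (fun k => ?_) (summable_am_pow hU (n + 2))
  calc (N k : ℝ) ^ n * bw κ L U k ≤ (N k : ℝ) ^ n * ((N k : ℝ) ^ 2 * am U k) :=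
        mul_le_mul_of_nonneg_left (bw_le hL k) (by positivity)
    _ = _ := by ring

theorem summable_bw (hL : 0 < L) (hU : ∀ i, Rap (U i)) : Summable (bw κ L U) := by
  simpa using summable_bw_pow (κ := κ) hL hU 0

theorem summable_Nbw (hL : 0 < L) (hU : ∀ i, Rap (U i)) :
    Summable fun k => (N k : ℝ) * bw κ L U k := by
  simpa using summable_bw_pow (κ := κ) hL hU 1

theorem summable_Nam (hU : ∀ i, Rap (U i)) : Summable fun k => (N k : ℝ) * am U k := by
  simpa using summable_am_pow hU 1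

/-- The symmetrized integrand. -/
noncomputable def gg (κ : ℕ) (L : ℝ) (U : Fin 3 → K3 → ℂ) (p q : K3) : ℝ :=
  min (N p : ℝ) (N q) * (am U p * (bw κ L U q * bw κ L U (-p - q)))

theorem gg_nonneg (hL : 0 < L) (p q : K3) : 0 ≤ gg κ L U p q :=
  mul_nonneg (le_min (by positivity) (by positivity))
    (mul_nonneg (am_nonneg U p) (mul_nonneg (bw_nonneg hL _) (bw_nonneg hL _)))

theorem krb_le2 (hL : 0 < L) (p q : K3) :
    krb κ L U p q ≤ 2 * Real.pi * Ck κ * (gg κ L U q p + gg κ L U p q) := by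
  have h0 := triad_wt (κ := κ) hL p q
  have h1 := am_nonneg U p
  have h2 := am_nonneg U q
  have h3 := am_nonneg U (-p - q)
  have h4 := wt_nonneg (κ := κ) hL (-p - q)
  have hpi := Real.pi_pos
  have h5 : -q - p = -p - q := by abel
  unfold krb gg bw
  rw [h5, min_comm (N q : ℝ) (N p)]
  calc 2 * Real.pi * (|wt κ L (-p - q) - wt κ L q| * ↑(N q))
        * (am U p * (am U q * (wt κ L (-p - q) * am U (-p - q))))
      ≤ 2 * Real.pi * (Ck κ * min (N p : ℝ) (N q) * (wt κ L p + wt κ L q))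
        * (am U p * (am U q * (wt κ L (-p - q) * am U (-p - q)))) := by
        refine mul_le_mul_of_nonneg_right (mul_le_mul_of_nonneg_left h0 (by positivity)) ?_
        positivity
    _ = _ := by ring

theorem summable_gg (hL : 0 < L) (hU : ∀ i, Rap (U i)) :
    Summable fun p : K3 × K3 => gg κ L U p.1 p.2 := by
  have h := summable_tri_real (x := fun k => (N k : ℝ) * am U k) (y := bw κ L U)
    (z := bw κ L U) (fun k => mul_nonneg (by positivity) (am_nonneg U k))
    (fun k => bw_nonneg hL k) (fun k => bw_nonneg hL k) (summable_Nam hU) (summable_bw hL hU)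
    (summable_bw hL hU)
  refine Summable.of_nonneg_of_le (fun p => gg_nonneg hL _ _) (fun p => ?_) h
  unfold gg
  have h1 := am_nonneg U p.1
  have h2 := bw_nonneg (κ := κ) (U := U) hL p.2
  have h3 := bw_nonneg (κ := κ) (U := U) hL (-p.1 - p.2)
  calc min (N p.1 : ℝ) (N p.2) * (am U p.1 * (bw κ L U p.2 * bw κ L U (-p.1 - p.2)))
      ≤ (N p.1 : ℝ) * (am U p.1 * (bw κ L U p.2 * bw κ L U (-p.1 - p.2))) := by
        gcongr
        exact min_le_left _ _
    _ = _ := by ring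

theorem tsum_gg_swap :
    ∑' p : K3 × K3, gg κ L U p.2 p.1 = ∑' p : K3 × K3, gg κ L U p.1 p.2 :=
  (Equiv.prodComm K3 K3).tsum_eq fun p : K3 × K3 => gg κ L U p.1 p.2

theorem summable_gg_swap (h1 : Summable fun p : K3 × K3 => gg κ L U p.1 p.2) :
    Summable fun p : K3 × K3 => gg κ L U p.2 p.1 := by
  have h2 := ((Equiv.prodComm K3 K3).summable_iff
    (f := fun p : K3 × K3 => gg κ L U p.1 p.2)).2 h1
  refine h2.congr fun p => ?_
  rfl

theorem summable_gg_add
    (h1 : Summable fun p : K3 × K3 => gg κ L U p.1 p.2)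
    (h2 : Summable fun p : K3 × K3 => gg κ L U p.2 p.1) :
      Summable fun p : K3 × K3 =>
        2 * Real.pi * Ck κ * (gg κ L U p.2 p.1 + gg κ L U p.1 p.2) := by
  exact (h2.add h1).mul_left (2 * Real.pi * Ck κ)

theorem tsum_krb_le (hL : 0 < L) (hU : ∀ i, Rap (U i))
    (h3 : Summable fun p : K3 × K3 =>
      2 * Real.pi * Ck κ * (gg κ L U p.2 p.1 + gg κ L U p.1 p.2)) :
      ∑' p : K3 × K3, krb κ L U p.1 p.2
        ≤ ∑' p : K3 × K3, 2 * Real.pi * Ck κ * (gg κ L U p.2 p.1 + gg κ L U p.1 p.2) := by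
  exact Summable.tsum_le_tsum (fun p => krb_le2 hL p.1 p.2) (summable_krb hL hU) h3

theorem tsum_gg_add
    (h1 : Summable fun p : K3 × K3 => gg κ L U p.1 p.2)
    (h2 : Summable fun p : K3 × K3 => gg κ L U p.2 p.1) :
      ∑' p : K3 × K3, 2 * Real.pi * Ck κ * (gg κ L U p.2 p.1 + gg κ L U p.1 p.2)
        ≤ 4 * Real.pi * Ck κ * ∑' p : K3 × K3, gg κ L U p.1 p.2 := by
  rw [tsum_mul_left, h2.tsum_add h1, tsum_gg_swap]
  exact le_of_eq (by ring)

theorem norm_CI_le2 (hL : 0 < L) (hU : ∀ i, Rap (U i))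
    (hdiv : ∀ k, ∑ j, (k j : ℂ) * U j k = 0) :
    ‖CI κ L U‖ ≤ 4 * Real.pi * Ck κ * ∑' p : K3 × K3, gg κ L U p.1 p.2 := by
  have h1 := summable_gg (κ := κ) hL hU
  have h2 := summable_gg_swap h1
  have h3 := summable_gg_add h1 h2
  exact ((norm_CI_le hL hU hdiv).trans (tsum_krb_le hL hU h3)).trans (tsum_gg_add h1 h2)

/-- The sum of squares of the weighted sizes. -/
noncomputable def GG (κ : ℕ) (L : ℝ) (U : Fin 3 → K3 → ℂ) : ℝ := ∑' k, bw κ L U k ^ 2

/-- The sum of squares with one derivative more. -/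
noncomputable def PP (κ : ℕ) (L : ℝ) (U : Fin 3 → K3 → ℂ) : ℝ :=
  ∑' k, ((N k : ℝ) * bw κ L U k) ^ 2

theorem tsum_gg_le (hL : 0 < L) (hU : ∀ i, Rap (U i)) (A : Set K3) {lam : ℝ} (hl : 0 < lam) :
    ∑' p : K3 × K3, gg κ L U p.1 p.2
      ≤ (∑' k, A.indicator (fun k => (N k : ℝ) * am U k) k) * GG κ L U
        + (∑' k, Aᶜ.indicator (am U) k) * (lam / 2 * PP κ L U + GG κ L U / (2 * lam)) := by
  have hb0 : ∀ k, 0 ≤ bw κ L U k := fun k => bw_nonneg hL k
  have hNb0 : ∀ k, 0 ≤ (N k : ℝ) * bw κ L U k := fun k => mul_nonneg (by positivity) (hb0 k)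
  have hNa0 : ∀ k, 0 ≤ (N k : ℝ) * am U k := fun k => mul_nonneg (by positivity) (am_nonneg U k)
  have hx0 : ∀ k, 0 ≤ A.indicator (fun k => (N k : ℝ) * am U k) k :=
    fun k => Set.indicator_nonneg (fun k _ => hNa0 k) k
  have hy0 : ∀ k, 0 ≤ Aᶜ.indicator (am U) k :=
    fun k => Set.indicator_nonneg (fun k _ => am_nonneg U k) k
  have hx : Summable (A.indicator (fun k => (N k : ℝ) * am U k)) := (summable_Nam hU).indicator A
  have hy : Summable (Aᶜ.indicator (am U)) := (summable_am hU).indicator _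
  have s1 := summable_tri_real hx0 hb0 hb0 hx (summable_bw hL hU) (summable_bw hL hU)
  have s2 := summable_tri_real hy0 hNb0 hb0 hy (summable_Nbw hL hU) (summable_bw hL hU)
  have t1 := tri_amgm hx0 hb0 hb0 hx (summable_bw hL hU) (summable_bw hL hU) one_pos
  have t2 := tri_amgm hy0 hNb0 hb0 hy (summable_Nbw hL hU) (summable_bw hL hU) hl
  have h1 : ∑' p : K3 × K3, gg κ L U p.1 p.2 ≤ _ :=
    Summable.tsum_le_tsum (fun p => ?_) (summable_gg hL hU) (s1.add s2)
  · rw [s1.tsum_add s2] at h1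
    refine h1.trans (add_le_add (t1.trans (le_of_eq ?_)) t2)
    unfold GG
    ring
  · have hbb : 0 ≤ bw κ L U p.2 * bw κ L U (-p.1 - p.2) := mul_nonneg (hb0 _) (hb0 _)
    unfold gg
    by_cases hp : p.1 ∈ A
    · rw [Set.indicator_of_mem hp, Set.indicator_of_notMem (by simpa using hp), zero_mul, add_zero]
      calc min (N p.1 : ℝ) (N p.2) * (am U p.1 * (bw κ L U p.2 * bw κ L U (-p.1 - p.2)))
          ≤ (N p.1 : ℝ) * (am U p.1 * (bw κ L U p.2 * bw κ L U (-p.1 - p.2))) :=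
            mul_le_mul_of_nonneg_right (min_le_left _ _) (mul_nonneg (am_nonneg U _) hbb)
        _ = _ := by ring
    · rw [Set.indicator_of_notMem hp, Set.indicator_of_mem (by simpa using hp), zero_mul, zero_add]
      calc min (N p.1 : ℝ) (N p.2) * (am U p.1 * (bw κ L U p.2 * bw κ L U (-p.1 - p.2)))
          ≤ (N p.2 : ℝ) * (am U p.1 * (bw κ L U p.2 * bw κ L U (-p.1 - p.2))) :=
            mul_le_mul_of_nonneg_right (min_le_right _ _) (mul_nonneg (am_nonneg U _) hbb)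
        _ = _ := by ring

/-- The weighted energy. -/
noncomputable def FF (κ : ℕ) (L : ℝ) (U : Fin 3 → K3 → ℂ) : ℝ := ∑' k, wt κ L k ^ 2 * e2 U k

/-- The weighted dissipation. -/
noncomputable def QQ (κ : ℕ) (L : ℝ) (U : Fin 3 → K3 → ℂ) : ℝ :=
  ∑' k, (N k : ℝ) ^ 2 * (wt κ L k ^ 2 * e2 U k)

theorem summable_QQ (hL : 0 < L) (hU : ∀ i, Rap (U i)) (n : ℕ) :
    Summable fun k => ((N k : ℝ) ^ n) ^ 2 * (wt κ L k ^ 2 * e2 U k) := by
  refine Summable.of_nonneg_of_le (fun k => mul_nonneg (by positivity)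
    (mul_nonneg (by positivity) (e2_nonneg U k))) (fun k => ?_)
    (summable_sq_real (z := fun k => (N k : ℝ) ^ n * bw κ L U k)
      (fun k => mul_nonneg (by positivity) (bw_nonneg hL k)) (summable_bw_pow hL hU n))
  calc ((N k : ℝ) ^ n) ^ 2 * (wt κ L k ^ 2 * e2 U k)
      ≤ ((N k : ℝ) ^ n) ^ 2 * (wt κ L k ^ 2 * am U k ^ 2) := by
        gcongr
        exact e2_le U k
    _ = ((N k : ℝ) ^ n * bw κ L U k) ^ 2 := by
        unfold bw
        ring

theorem GG_le (hL : 0 < L) (hU : ∀ i, Rap (U i)) : GG κ L U ≤ 3 * FF κ L U := by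
  unfold GG FF
  rw [← tsum_mul_left]
  refine Summable.tsum_le_tsum (fun k => ?_) (summable_sq_real (fun k => bw_nonneg hL k)
    (summable_bw hL hU)) ?_
  · unfold bw
    have := mul_le_mul_of_nonneg_left (am_sq_le U k) (sq_nonneg (wt κ L k))
    nlinarith
  · have := (summable_QQ (κ := κ) hL hU 0).mul_left 3
    simpa using this

theorem PP_le (hL : 0 < L) (hU : ∀ i, Rap (U i)) : PP κ L U ≤ 3 * QQ κ L U := by
  unfold PP QQ
  rw [← tsum_mul_left]
  refine Summable.tsum_le_tsum (fun k => ?_) (summable_sq_real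
    (z := fun k => (N k : ℝ) * bw κ L U k) (fun k => mul_nonneg (by positivity) (bw_nonneg hL k))
    (summable_Nbw hL hU)) ?_
  · unfold bw
    have := mul_le_mul_of_nonneg_left (am_sq_le U k) (sq_nonneg ((N k : ℝ) * wt κ L k))
    nlinarith
  · have := (summable_QQ (κ := κ) hL hU 1).mul_left 3
    simpa using this

theorem norm_CI_le3 (hL : 0 < L) (hU : ∀ i, Rap (U i))
    (hdiv : ∀ k, ∑ j, (k j : ℂ) * U j k = 0) (A : Set K3) {lam : ℝ} (hl : 0 < lam) :
    ‖CI κ L U‖ ≤ 12 * Real.pi * Ck κ *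
      ((∑' k, A.indicator (fun k => (N k : ℝ) * am U k) k) * FF κ L U
        + (∑' k, Aᶜ.indicator (am U) k) * (lam / 2 * QQ κ L U + FF κ L U / (2 * lam))) := by
  have h1 := norm_CI_le2 (κ := κ) hL hU hdiv
  have h2 := tsum_gg_le (κ := κ) hL hU A hl
  have h3 := GG_le (κ := κ) hL hU
  have h4 := PP_le (κ := κ) hL hU
  have hx0 : 0 ≤ ∑' k, A.indicator (fun k => (N k : ℝ) * am U k) k :=
    tsum_nonneg fun k => Set.indicator_nonneg
      (fun k _ => mul_nonneg (by positivity) (am_nonneg U k)) k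
  have hy0 : 0 ≤ ∑' k, Aᶜ.indicator (am U) k :=
    tsum_nonneg fun k => Set.indicator_nonneg (fun k _ => am_nonneg U k) k
  have hc : 0 < Ck κ := lt_of_lt_of_le one_pos (one_le_Ck κ)
  have hpi := Real.pi_pos
  generalize (∑' k, A.indicator (fun k => (N k : ℝ) * am U k) k) = X at *
  generalize (∑' k, Aᶜ.indicator (am U) k) = Y at *
  have h5 : X * GG κ L U + Y * (lam / 2 * PP κ L U + GG κ L U / (2 * lam))
      ≤ X * (3 * FF κ L U) + Y * (lam / 2 * (3 * QQ κ L U) + 3 * FF κ L U / (2 * lam)) := by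
    gcongr
  calc ‖CI κ L U‖ ≤ 4 * Real.pi * Ck κ * (X * (3 * FF κ L U)
        + Y * (lam / 2 * (3 * QQ κ L U) + 3 * FF κ L U / (2 * lam))) :=
        h1.trans (mul_le_mul_of_nonneg_left (h2.trans h5) (by positivity))
    _ = _ := by ring

end Pool.Agent.TH305.FB
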