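import Pool.Agent.TH305.FB.Fin

/-!
The choice of the parameters, and bounds of the initial data.
-/

set_option autoImplicit false

open MeasureTheory Set Filter Topology
open H459R3.NS

namespace Pool.Agent.TH305.FB

variable {κ : ℕ} {L R : ℝ} {U : Fin 3 → K3 → ℂ}

theorem one_le_N {k : K3} (hk : k ≠ 0) : (1 : ℝ) ≤ N k := by
  have h : N k ≠ 0 := by
    intro h0
    refine hk (funext fun j => ?_)
    have h1 := (N_le_iff k 0).1 h0.le j
    simpa using h1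
  exact_mod_cast Nat.one_le_iff_ne_zero.2 h

theorem N_zero : N (0 : K3) = 0 := by simp [N]

theorem EE_data (hU : ∀ i, Rap (U i)) (hR : ∀ k, (1 + (N k : ℝ)) ^ (κ + 4) * am U k ≤ R) :
    EE U ≤ R ^ 2 * (1 + C4) := by
  have hR0 : 0 ≤ R := (mul_nonneg (by positivity) (am_nonneg U 0)).trans (hR 0)
  have hs1 : Summable fun k : K3 => if k = 0 then (1 : ℝ) else 0 :=
    summable_of_hasFiniteSupport ((Set.finite_singleton (0 : K3)).subset fun k hk => by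
      by_contra h
      exact hk (if_neg h))
  have hs := (hs1.add summable_N4).mul_left (R ^ 2)
  have h1 : ∑' k : K3, ((if k = 0 then (1 : ℝ) else 0)
      + (if k = 0 then (0 : ℝ) else 1 / (N k : ℝ) ^ 4)) = 1 + C4 := by
    rw [hs1.tsum_add summable_N4, tsum_ite_eq]
    rfl
  rw [← h1, ← tsum_mul_left]
  refine Summable.tsum_le_tsum (fun k => ?_) (summable_e2 hU) hs
  refine (e2_le U k).trans ?_
  have ha := am_nonneg U k
  have hk := hR k
  by_cases h0 : k = 0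
  · rw [if_pos h0, if_pos h0, add_zero, mul_one]
    rw [h0, N_zero] at hk
    simp only [Nat.cast_zero, add_zero, one_pow, one_mul] at hk
    rw [h0] at ha ⊢
    gcongr
  · rw [if_neg h0, if_neg h0, zero_add]
    have hN := one_le_N h0
    have h2 : (N k : ℝ) ^ 2 * am U k ≤ R := by
      refine le_trans (mul_le_mul_of_nonneg_right ?_ ha) hk
      calc (N k : ℝ) ^ 2 ≤ (1 + (N k : ℝ)) ^ 2 := by gcongr; linarith
        _ ≤ (1 + (N k : ℝ)) ^ (κ + 4) := pow_le_pow_right₀ (by linarith) (by omega)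
    have h3 : ((N k : ℝ) ^ 2 * am U k) ^ 2 ≤ R ^ 2 := by gcongr
    rw [mul_one_div, le_div_iff₀ (by positivity)]
    calc am U k ^ 2 * (N k : ℝ) ^ 4 = ((N k : ℝ) ^ 2 * am U k) ^ 2 := by ring
      _ ≤ R ^ 2 := h3

theorem FF_data (hL : 0 < L) (hU : ∀ i, Rap (U i))
    (hR : ∀ k, (1 + (N k : ℝ)) ^ (κ + 4) * am U k ≤ R) :
    FF κ L U ≤ R ^ 2 * C4 / (L ^ κ) ^ 2 := by
  have h1 : R ^ 2 * C4 / (L ^ κ) ^ 2
      = ∑' k : K3, R ^ 2 / (L ^ κ) ^ 2 * (if k = 0 then (0 : ℝ) else 1 / (N k : ℝ) ^ 4) := by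
    rw [tsum_mul_left, ← C4]
    ring
  rw [h1]
  unfold FF
  refine Summable.tsum_le_tsum (fun k => ?_) (summable_w2e2 hL hU) (summable_N4.mul_left _)
  have ha := am_nonneg U k
  have hk := hR k
  have hw := wt_nonneg (κ := κ) hL k
  have he := e2_nonneg U k
  by_cases h0 : k = 0
  · rw [if_pos h0, mul_zero]
    have : wt κ L k = 0 := by
      refine le_antisymm ?_ hw
      have := wt_le (κ := κ) hL k
      rw [h0, N_zero] at this
      rw [h0]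
      simpa using this
    rw [this]
    simp
  · rw [if_neg h0]
    have hN := one_le_N h0
    have hw2 : wt κ L k ≤ (N k : ℝ) ^ (κ + 2) / L ^ κ := psi_le_pow hL (by positivity)
    have h2 : (N k : ℝ) ^ (κ + 4) * am U k ≤ R := by
      refine le_trans (mul_le_mul_of_nonneg_right ?_ ha) hk
      gcongr
      linarith
    have h3 : ((N k : ℝ) ^ (κ + 4) * am U k) ^ 2 ≤ R ^ 2 := by gcongr
    have h4 : am U k ^ 2 ≤ R ^ 2 / ((N k : ℝ) ^ (κ + 4)) ^ 2 := by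
      rw [le_div_iff₀ (by positivity)]
      calc am U k ^ 2 * ((N k : ℝ) ^ (κ + 4)) ^ 2 = ((N k : ℝ) ^ (κ + 4) * am U k) ^ 2 := by ring
        _ ≤ R ^ 2 := h3
    calc wt κ L k ^ 2 * e2 U k
        ≤ ((N k : ℝ) ^ (κ + 2) / L ^ κ) ^ 2 * (R ^ 2 / ((N k : ℝ) ^ (κ + 4)) ^ 2) := by
          have := (e2_le U k).trans h4
          gcongr
      _ = R ^ 2 / (L ^ κ) ^ 2 * (1 / (N k : ℝ) ^ 4) := by
          have hNp : (0 : ℝ) < N k := by linarith
          field_simp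
          ring

theorem tendsto_c (a : ℝ) {b : ℝ} (hb : 0 < b) :
    Tendsto (fun L : ℝ => a * L ^ (-b)) atTop (𝓝 0) := by
  have := (tendsto_rpow_neg_atTop hb).const_mul a
  simpa using this

theorem exists_L0 {δ : ℝ} (hδ : 0 < δ) (hδ2 : δ < 4 / 5) (hκ : 4 ≤ (κ : ℝ) * δ) {ν : ℝ}
    (hν : 0 < ν) (R : ℝ) :
    ∃ L0 : ℝ, 1 ≤ L0 ∧ ∀ L, L0 ≤ L →
      24 * Real.pi * Ck κ * (L ^ (4 / 5 - δ) * √(81 * (L ^ (4 / 5 - δ)) ^ 3 * (R ^ 2 * (1 + C4))))
        + 216 * Ck κ ^ 2 * C4 * ν ≤ 2 * Real.pi ^ 2 * ν * (L ^ (1 - δ)) ^ 2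
      ∧ 2 * psi κ L (L ^ (1 - δ)) ^ 2 * (R ^ 2 * (1 + C4)) ≤ ν ^ 2 / (2 * L)
      ∧ R ^ 2 * C4 / (L ^ κ) ^ 2 ≤ ν ^ 2 / (2 * L) := by
  set E : ℝ := R ^ 2 * (1 + C4) with hE
  have hC4 := C4_nonneg
  have hE0 : 0 ≤ E := by positivity
  have hpi := Real.pi_pos
  have hκ1 : 1 ≤ κ := by
    rcases Nat.eq_zero_or_pos κ with h | h
    · rw [h] at hκ
      norm_num at hκ
    · exact h
  have t1 : ∀ᶠ L : ℝ in atTop, (216 * Real.pi * Ck κ * √E) * L ^ (-(δ / 2))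
      + (216 * Ck κ ^ 2 * C4 * ν) * L ^ (-(2 - 2 * δ)) < 2 * Real.pi ^ 2 * ν := by
    have h1 := (tendsto_c (216 * Real.pi * Ck κ * √E) (half_pos hδ)).add
      (tendsto_c (216 * Ck κ ^ 2 * C4 * ν) (show 0 < 2 - 2 * δ by linarith))
    rw [add_zero] at h1
    exact h1.eventually_lt_const (by positivity)
  have t2 : ∀ᶠ L : ℝ in atTop, 4 * E / ν ^ 2 + 2 * R ^ 2 * C4 / ν ^ 2 ≤ L :=
    eventually_ge_atTop _
  obtain ⟨L0, hL0⟩ := eventually_atTop.1 ((t1.and t2).and (eventually_ge_atTop (1 : ℝ)))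
  refine ⟨max L0 1, le_max_right _ _, fun L hL => ?_⟩
  obtain ⟨⟨h1, h2⟩, hL1⟩ := hL0 L ((le_max_left _ _).trans hL)
  have hLp : 0 < L := by linarith
  refine ⟨?_, ?_, ?_⟩
  · have e1 : √(81 * (L ^ (4 / 5 - δ)) ^ 3 * E) = 9 * L ^ (3 * (4 / 5 - δ) / 2) * √E := by
      rw [Real.sqrt_mul (by positivity), Real.sqrt_mul (by norm_num),
        show (81 : ℝ) = 9 ^ 2 by norm_num, Real.sqrt_sq (by norm_num)]
      congr 2
      rw [← Real.rpow_natCast (L ^ (4 / 5 - δ)) 3, ← Real.rpow_mul hLp.le, Real.sqrt_eq_rpow,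
        ← Real.rpow_mul hLp.le]
      congr 1
      push_cast
      ring
    have e2' : (L ^ (1 - δ)) ^ 2 = L ^ (2 - 2 * δ) := by
      rw [← Real.rpow_natCast (L ^ (1 - δ)) 2, ← Real.rpow_mul hLp.le]
      congr 1
      push_cast
      ring
    have e3 : L ^ (4 / 5 - δ) * (9 * L ^ (3 * (4 / 5 - δ) / 2) * √E)
        = 9 * √E * (L ^ (-(δ / 2)) * L ^ (2 - 2 * δ)) := by
      rw [← Real.rpow_add hLp]
      calc L ^ (4 / 5 - δ) * (9 * L ^ (3 * (4 / 5 - δ) / 2) * √E)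
          = 9 * √E * (L ^ (4 / 5 - δ) * L ^ (3 * (4 / 5 - δ) / 2)) := by ring
        _ = 9 * √E * L ^ (-(δ / 2) + (2 - 2 * δ)) := by
            rw [← Real.rpow_add hLp]
            congr 2
            ring
    have e4 : L ^ (-(2 - 2 * δ)) * L ^ (2 - 2 * δ) = 1 := by
      rw [← Real.rpow_add hLp]
      simp
    rw [e1, e2', e3]
    have hpow : 0 < L ^ (2 - 2 * δ) := Real.rpow_pos_of_pos hLp _
    have h3 := mul_le_mul_of_nonneg_right h1.le hpow.le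
    calc 24 * Real.pi * Ck κ * (9 * √E * (L ^ (-(δ / 2)) * L ^ (2 - 2 * δ)))
          + 216 * Ck κ ^ 2 * C4 * ν
        = 24 * Real.pi * Ck κ * (9 * √E * (L ^ (-(δ / 2)) * L ^ (2 - 2 * δ)))
          + 216 * Ck κ ^ 2 * C4 * ν * (L ^ (-(2 - 2 * δ)) * L ^ (2 - 2 * δ)) := by
          rw [e4, mul_one]
      _ = (216 * Real.pi * Ck κ * √E * L ^ (-(δ / 2))
          + 216 * Ck κ ^ 2 * C4 * ν * L ^ (-(2 - 2 * δ))) * L ^ (2 - 2 * δ) := by ring
      _ ≤ 2 * Real.pi ^ 2 * ν * L ^ (2 - 2 * δ) := h3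
  · have hK0 : 0 ≤ L ^ (1 - δ) := (Real.rpow_pos_of_pos hLp _).le
    have a1 := psi_le_pow (κ := κ) hLp hK0
    have a2 : (L ^ (1 - δ)) ^ (κ + 2) / L ^ κ ≤ 1 / L ^ 2 := by
      have b1 : (L ^ (1 - δ)) ^ (κ + 2) = L ^ ((1 - δ) * (κ + 2)) := by
        rw [← Real.rpow_natCast, ← Real.rpow_mul hLp.le]
        push_cast
        rfl
      rw [b1, ← Real.rpow_natCast L κ, ← Real.rpow_sub hLp, one_div, ← Real.rpow_natCast L 2,
        ← Real.rpow_neg hLp.le]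
      refine Real.rpow_le_rpow_of_exponent_le hL1 ?_
      push_cast
      nlinarith
    have a3 := psi_nonneg (κ := κ) hLp hK0
    have a4 : psi κ L (L ^ (1 - δ)) ^ 2 ≤ (1 / L ^ 2) ^ 2 := by
      have := a1.trans a2
      gcongr
    have a5 : 4 * E ≤ ν ^ 2 * L := by
      have b1 : 4 * E / ν ^ 2 ≤ L := by
        have : 0 ≤ 2 * R ^ 2 * C4 / ν ^ 2 := by positivity
        linarith
      rw [div_le_iff₀ (by positivity), mul_comm] at b1
      linarith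
    have a6 : 2 * psi κ L (L ^ (1 - δ)) ^ 2 * E ≤ 2 * (1 / L ^ 2) ^ 2 * E := by gcongr
    refine a6.trans ?_
    rw [le_div_iff₀ (by positivity)]
    have e : 2 * (1 / L ^ 2) ^ 2 * E * (2 * L) = 4 * E / L ^ 3 := by
      field_simp
      ring
    rw [e, div_le_iff₀ (by positivity)]
    have a7 : L ≤ L ^ 3 := by
      calc L = L ^ 1 := (pow_one L).symm
        _ ≤ L ^ 3 := pow_le_pow_right₀ hL1 (by norm_num)
    calc 4 * E ≤ ν ^ 2 * L := a5
      _ ≤ ν ^ 2 * L ^ 3 := by gcongr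
  · have a5 : 2 * (R ^ 2 * C4) ≤ ν ^ 2 * L := by
      have b1 : 2 * R ^ 2 * C4 / ν ^ 2 ≤ L := by
        have : 0 ≤ 4 * E / ν ^ 2 := by positivity
        linarith
      rw [div_le_iff₀ (by positivity), mul_comm] at b1
      linarith
    rw [le_div_iff₀ (by positivity)]
    have e : R ^ 2 * C4 / (L ^ κ) ^ 2 * (2 * L) = 2 * (R ^ 2 * C4) * L / (L ^ κ) ^ 2 := by ring
    rw [e, div_le_iff₀ (by positivity)]
    have a7 : L ≤ L ^ κ := by
      calc L = L ^ 1 := (pow_one L).symm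
        _ ≤ L ^ κ := pow_le_pow_right₀ hL1 hκ1
    calc 2 * (R ^ 2 * C4) * L ≤ ν ^ 2 * L * L := by gcongr
      _ = ν ^ 2 * L ^ 2 := by ring
      _ ≤ ν ^ 2 * (L ^ κ) ^ 2 := by gcongr

end Pool.Agent.TH305.FB
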