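import Pool.Agent.TH305.FB.DBound
import Pool.Agent.H459R3.NS.Main

/-!
The time derivative of weighted sums of squares of the Fourier coefficients.
-/

set_option autoImplicit false

open MeasureTheory Set Filter Topology
open scoped ContDiff
open H459R3.NS

namespace Pool.Agent.TH305.FB

theorem norm_fr_le_sup {f : V → ℝ} {C : ℝ} (hC : ∀ x ∈ cube, |f x| ≤ C) (k : K3) :
    ‖fr f k‖ ≤ C := by
  unfold fr fc
  have h := norm_setIntegral_le_of_norm_le_const (μ := volume) (s := cube)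
    (f := fun x => ee (-k) x * (f x : ℂ)) (C := C) (by rw [volume_cube]; simp) (fun x hx => by
      rw [norm_mul, norm_ee, one_mul, Complex.norm_real]
      exact hC x hx)
  have h1 : volume.real cube = 1 := by simp [Measure.real, volume_cube]
  rw [h1, mul_one] at h
  exact h

section general

variable {T : ℝ} {f : ℝ → V → ℝ}

theorem iter_contDiffOn (hf : ContDiffOn ℝ ∞ (fun z : ℝ × V => f z.1 z.2) (Ico 0 T ×ˢ univ))
    (j : Fin 3) (n : ℕ) :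
    ContDiffOn ℝ ∞ (fun z : ℝ × V => (pd j)^[n] (f z.1) z.2) (Ico 0 T ×ˢ univ) := by
  induction n with
  | zero => exact hf
  | succ n ih =>
    have := contDiffOn_pd (f := fun s => (pd j)^[n] (f s)) ih j
    simp_rw [Function.iterate_succ_apply']
    exact this

theorem sp_slice (hf : ContDiffOn ℝ ∞ (fun z : ℝ × V => f z.1 z.2) (Ico 0 T ×ˢ univ))
    (hp : ∀ t ∈ Ico 0 T, Per (f t)) {t : ℝ} (ht : t ∈ Ico 0 T) : SP (f t) where
  smooth := contDiff_slice hf ht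
  per := hp t ht

theorem unif_decay (hf : ContDiffOn ℝ ∞ (fun z : ℝ × V => f z.1 z.2) (Ico 0 T ×ˢ univ))
    (hp : ∀ t ∈ Ico 0 T, Per (f t)) {b : ℝ} (hb : b < T) (n : ℕ) :
    ∃ C, ∀ t ∈ Icc 0 b, ∀ k, (N k : ℝ) ^ n * ‖fr (f t) k‖ ≤ C := by
  have hK : IsCompact (Icc 0 b ×ˢ cube) := isCompact_Icc.prod isCompact_Icc
  have hsub : Icc 0 b ×ˢ cube ⊆ Ico 0 T ×ˢ (univ : Set V) :=
    prod_mono (fun s hs => ⟨hs.1, hs.2.trans_lt hb⟩) (subset_univ _)
  choose C hC using fun j =>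
    hK.exists_bound_of_continuousOn ((iter_contDiffOn hf j n).continuousOn.mono hsub)
  refine ⟨∑ j, C j, fun t ht k => ?_⟩
  have htT : t ∈ Ico 0 T := ⟨ht.1, ht.2.trans_lt hb⟩
  have hsp := sp_slice hf hp htT
  have h1 : ∀ j, |(k j : ℝ)| ^ n * ‖fr (f t) k‖ ≤ C j := by
    intro j
    have h2 : ‖fr ((pd j)^[n] (f t)) k‖ ≤ C j :=
      norm_fr_le_sup (fun x hx => hC j (t, x) ⟨ht, hx⟩) k
    refine le_trans ?_ h2
    rw [fr_iter hsp, norm_mul, norm_pow]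
    gcongr
    rw [norm_mul, norm_mul, norm_mul, Complex.norm_I, mul_one, Complex.norm_real,
      Real.norm_eq_abs, abs_of_pos Real.pi_pos, Complex.norm_ofNat, Complex.norm_intCast]
    have h0 : 0 ≤ |(k j : ℝ)| := abs_nonneg _
    have := Real.pi_gt_three
    nlinarith
  calc (N k : ℝ) ^ n * ‖fr (f t) k‖ ≤ (∑ j, |(k j : ℝ)| ^ n) * ‖fr (f t) k‖ := by
        gcongr
        exact N_pow_le k n
    _ = ∑ j, |(k j : ℝ)| ^ n * ‖fr (f t) k‖ := Finset.sum_mul _ _ _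
    _ ≤ ∑ j, C j := Finset.sum_le_sum fun j _ => h1 j

/-- A summable majorant. -/
noncomputable def k3 (k : K3) : ℝ :=
  (1 / (1 + (k 0 : ℝ) ^ 2)) * ((1 / (1 + (k 1 : ℝ) ^ 2)) * (1 / (1 + (k 2 : ℝ) ^ 2)))

theorem k3_nonneg (k : K3) : 0 ≤ k3 k := by unfold k3; positivity

theorem decay_le {k : K3} {x C0 C1 : ℝ} (hx : 0 ≤ x) (h0 : x ≤ C0)
    (h1 : (N k : ℝ) ^ 6 * x ≤ C1) : x ≤ (64 * (C0 + C1)) * k3 k := by
  have hN : (0 : ℝ) ≤ N k := by positivity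
  have h1 : (1 + (N k : ℝ)) ^ 6 * x ≤ 64 * (C0 + C1) := by
    have h2 : (1 + (N k : ℝ)) ^ 6 ≤ 64 * (1 + (N k : ℝ) ^ 6) := by
      rcases le_total (N k : ℝ) 1 with h | h
      · have : (1 + (N k : ℝ)) ^ 6 ≤ (1 + 1) ^ 6 := by gcongr
        nlinarith [pow_nonneg hN 6]
      · have : (1 + (N k : ℝ)) ^ 6 ≤ ((N k : ℝ) + (N k : ℝ)) ^ 6 := by gcongr
        have e : ((N k : ℝ) + (N k : ℝ)) ^ 6 = 64 * (N k : ℝ) ^ 6 := by ring
        linarith
    calc (1 + (N k : ℝ)) ^ 6 * x ≤ (64 * (1 + (N k : ℝ) ^ 6)) * x := by gcongr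
      _ = 64 * (x + (N k : ℝ) ^ 6 * x) := by ring
      _ ≤ 64 * (C0 + C1) := by linarith
  have h0 := one_add_sq_le k 0
  have h1' := one_add_sq_le k 1
  have h2' := one_add_sq_le k 2
  have hprod : (1 + (k 0 : ℝ) ^ 2) * ((1 + (k 1 : ℝ) ^ 2) * (1 + (k 2 : ℝ) ^ 2))
      ≤ (1 + (N k : ℝ)) ^ 6 := by
    calc (1 + (k 0 : ℝ) ^ 2) * ((1 + (k 1 : ℝ) ^ 2) * (1 + (k 2 : ℝ) ^ 2))
        ≤ (1 + (N k : ℝ)) ^ 2 * ((1 + (N k : ℝ)) ^ 2 * (1 + (N k : ℝ)) ^ 2) := by gcongr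
      _ = _ := by ring
  have hP : (0 : ℝ) < (1 + (k 0 : ℝ) ^ 2) * ((1 + (k 1 : ℝ) ^ 2) * (1 + (k 2 : ℝ) ^ 2)) := by
    positivity
  have e : (64 * (C0 + C1)) * k3 k
    = (64 * (C0 + C1)) / ((1 + (k 0 : ℝ) ^ 2) * ((1 + (k 1 : ℝ) ^ 2) * (1 + (k 2 : ℝ) ^ 2))) := by
    unfold k3
    field_simp
  rw [e, le_div_iff₀ hP, mul_comm]
  exact (mul_le_mul_of_nonneg_right hprod hx).trans h1

/-- Uniform summability of the Fourier coefficients. -/
theorem unif_sum (hf : ContDiffOn ℝ ∞ (fun z : ℝ × V => f z.1 z.2) (Ico 0 T ×ˢ univ))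
    (hp : ∀ t ∈ Ico 0 T, Per (f t)) {b : ℝ} (hb : b < T) (n : ℕ) :
    ∃ C, ∀ t ∈ Icc 0 b, ∀ k, (N k : ℝ) ^ n * ‖fr (f t) k‖ ≤ C * k3 k := by
  obtain ⟨C0, hC0⟩ := unif_decay hf hp hb n
  obtain ⟨C1, hC1⟩ := unif_decay hf hp hb (n + 6)
  refine ⟨64 * (C0 + C1), fun t ht k => decay_le (by positivity) (hC0 t ht k) ?_⟩
  have := hC1 t ht k
  calc (N k : ℝ) ^ 6 * ((N k : ℝ) ^ n * ‖fr (f t) k‖)
      = (N k : ℝ) ^ (n + 6) * ‖fr (f t) k‖ := by ring
    _ ≤ C1 := this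

theorem dt_bound (hf : ContDiffOn ℝ ∞ (fun z : ℝ × V => f z.1 z.2) (Ico 0 T ×ˢ univ))
    {a b : ℝ} (ha : 0 < a) (hb : b < T) :
    ∃ C, ∀ t ∈ Icc a b, ∀ k, ‖fr (dt f t) k‖ ≤ C := by
  have hO : IsOpen (Ioo 0 T ×ˢ (univ : Set V)) := isOpen_Ioo.prod isOpen_univ
  have hd : ContinuousOn (fun z : ℝ × V =>
      fderiv ℝ (fun z : ℝ × V => f z.1 z.2) z (1, 0)) (Ioo 0 T ×ˢ univ) :=
    ((mono_Ioo (n := 1) hf (by norm_cast)).continuousOn_fderiv_of_isOpen hO le_rfl).clm_apply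
      continuousOn_const
  have hK : IsCompact (Icc a b ×ˢ cube) := isCompact_Icc.prod isCompact_Icc
  have hsub : Icc a b ×ˢ cube ⊆ Ioo 0 T ×ˢ (univ : Set V) :=
    prod_mono (fun s hs => ⟨ha.trans_le hs.1, hs.2.trans_lt hb⟩) (subset_univ _)
  obtain ⟨C, hC⟩ := hK.exists_bound_of_continuousOn (hd.mono hsub)
  refine ⟨C, fun t ht k => norm_fr_le_sup (fun x hx => ?_) k⟩
  rw [H459R3.NS.dt_eq hf ⟨ha.trans_le ht.1, ht.2.trans_lt hb⟩ x]
  exact hC (t, x) ⟨ht, hx⟩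

theorem fr_eq {g : V → ℝ} (hg : Continuous g) (k : K3) :
    fr g k = ((∫ x in cube, (ee (-k) x).re * g x : ℝ) : ℂ)
      + ((∫ x in cube, (ee (-k) x).im * g x : ℝ) : ℂ) * Complex.I := by
  have hi : IntegrableOn (fun x => ee (-k) x * (g x : ℂ)) cube :=
    integrableOn_cube ((ee_continuous _).mul (Complex.continuous_ofReal.comp hg))
  have h := integral_re_add_im (𝕜 := ℂ) hi
  unfold fr fc
  rw [← h]
  simp

theorem hasDerivAt_fr (hf : ContDiffOn ℝ ∞ (fun z : ℝ × V => f z.1 z.2) (Ico 0 T ×ˢ univ))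
    {t : ℝ} (ht : t ∈ Ioo 0 T) (k : K3) :
    HasDerivAt (fun s => fr (f s) k) (fr (dt f t) k) t := by
  have hc : ∀ s ∈ Ico 0 T, Continuous (f s) := fun s hs => (contDiff_slice hf hs).continuous
  have hdc : Continuous (dt f t) := (contDiff_dt hf ht).continuous
  have hee := ee_contDiff (-k) (n := 1)
  have hre : ContDiff ℝ 1 fun x : V => (ee (-k) x).re := Complex.reCLM.contDiff.comp hee
  have him : ContDiff ℝ 1 fun x : V => (ee (-k) x).im := Complex.imCLM.contDiff.comp hee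
  have hf1 : ContDiffOn ℝ 1 (fun z : ℝ × V => f z.1 z.2) (Ioo 0 T ×ˢ univ) :=
    mono_Ioo hf (by norm_cast)
  have h1 := hasDerivAt_int (F := fun s x => (ee (-k) x).re * f s x)
    (((hre.comp contDiff_snd).contDiffOn).mul hf1) ht
  have h2 := hasDerivAt_int (F := fun s x => (ee (-k) x).im * f s x)
    (((him.comp contDiff_snd).contDiffOn).mul hf1) ht
  have e1 : ∀ x, deriv (fun s => (ee (-k) x).re * f s x) t = (ee (-k) x).re * dt f t x := fun x => by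
    unfold dt
    rw [deriv_const_mul_field]
  have e2 : ∀ x, deriv (fun s => (ee (-k) x).im * f s x) t = (ee (-k) x).im * dt f t x := fun x => by
    unfold dt
    rw [deriv_const_mul_field]
  simp_rw [e1] at h1
  simp_rw [e2] at h2
  rw [fr_eq hdc]
  refine (h1.ofReal_comp.add (h2.ofReal_comp.mul_const Complex.I)).congr_of_eventuallyEq ?_
  filter_upwards [Ioo_mem_nhds ht.1 ht.2] with s hs
  rw [fr_eq (hc s ⟨hs.1.le, hs.2⟩)]
  rfl

theorem hasDerivAt_sq (hf : ContDiffOn ℝ ∞ (fun z : ℝ × V => f z.1 z.2) (Ico 0 T ×ˢ univ))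
    {t : ℝ} (ht : t ∈ Ioo 0 T) (k : K3) :
    HasDerivAt (fun s => ‖fr (f s) k‖ ^ 2)
      (2 * ((starRingEnd ℂ) (fr (f t) k) * fr (dt f t) k).re) t := by
  have h := (hasDerivAt_fr hf ht k).norm_sq
  rw [Complex.inner, mul_comm (fr (dt f t) k)] at h
  exact h

theorem hasDerivAt_tsum_fr
    (hf : ContDiffOn ℝ ∞ (fun z : ℝ × V => f z.1 z.2) (Ico 0 T ×ˢ univ))
    (hp : ∀ t ∈ Ico 0 T, Per (f t)) {w : K3 → ℝ} (h0 : ∀ k, 0 ≤ w k)
    (hw : ∀ k, w k ≤ (N k : ℝ) ^ 4) {t : ℝ} (ht : t ∈ Ioo 0 T) :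
    HasDerivAt (fun s => ∑' k, w k * ‖fr (f s) k‖ ^ 2)
      (∑' k, w k * (2 * ((starRingEnd ℂ) (fr (f t) k) * fr (dt f t) k).re)) t := by
  obtain ⟨a, ha1, ha2⟩ := exists_between ht.1
  obtain ⟨b, hb1, hb2⟩ := exists_between ht.2
  obtain ⟨C1, hC1⟩ := unif_sum hf hp hb2 4
  obtain ⟨C2, hC2⟩ := dt_bound hf ha1 hb2
  have hsp := sp_slice hf hp (t := t) ⟨ht.1.le, ht.2⟩
  refine hasDerivAt_tsum_of_isPreconnected (u := fun k => 2 * C2 * (C1 * k3 k))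
    (t := Ioo a b) (y₀ := t) (g := fun k s => w k * ‖fr (f s) k‖ ^ 2)
    (g' := fun k s => w k * (2 * ((starRingEnd ℂ) (fr (f s) k) * fr (dt f s) k).re))
    ((summable_K3.mul_left C1).mul_left (2 * C2)) isOpen_Ioo isPreconnected_Ioo
    (fun k s hs => ?_) (fun k s hs => ?_) ⟨ha2, hb1⟩ ?_ ⟨ha2, hb1⟩
  · exact (hasDerivAt_sq hf ⟨ha1.trans hs.1, hs.2.trans hb2⟩ k).const_mul (w k)
  · have h1 := hC1 s ⟨(ha1.trans hs.1).le, hs.2.le⟩ k
    have h2 := hC2 s ⟨hs.1.le, hs.2.le⟩ k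
    have h3 : |((starRingEnd ℂ) (fr (f s) k) * fr (dt f s) k).re|
        ≤ ‖fr (f s) k‖ * ‖fr (dt f s) k‖ := by
      refine (Complex.abs_re_le_norm _).trans (le_of_eq ?_)
      rw [norm_mul, RCLike.norm_conj]
    have hC2' : 0 ≤ C2 := (norm_nonneg _).trans h2
    have h4 : 0 ≤ w k := h0 k
    have h5 := hw k
    rw [Real.norm_eq_abs, abs_mul, abs_mul, abs_of_nonneg h4, abs_two]
    calc w k * (2 * |((starRingEnd ℂ) (fr (f s) k) * fr (dt f s) k).re|)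
        ≤ (N k : ℝ) ^ 4 * (2 * (‖fr (f s) k‖ * C2)) := by
          gcongr
          exact h3.trans (by gcongr)
      _ = 2 * C2 * ((N k : ℝ) ^ 4 * ‖fr (f s) k‖) := by ring
      _ ≤ 2 * C2 * (C1 * k3 k) := by gcongr
  · have hs1 := rap_fr hsp
    obtain ⟨C, hC⟩ := norm_fr_le hsp
    have hC0 : 0 ≤ C := (norm_nonneg _).trans (hC 0)
    refine Summable.of_nonneg_of_le (fun k => mul_nonneg (h0 k) (by positivity)) (fun k => ?_)
      ((hs1 4).mul_left C)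
    calc w k * ‖fr (f t) k‖ ^ 2 ≤ (N k : ℝ) ^ 4 * (C * ‖fr (f t) k‖) := by
          rw [sq]
          gcongr
          · exact hw k
          · exact hC k
      _ = _ := by ring

theorem continuousOn_tsum_fr
    (hf : ContDiffOn ℝ ∞ (fun z : ℝ × V => f z.1 z.2) (Ico 0 T ×ˢ univ))
    (hp : ∀ t ∈ Ico 0 T, Per (f t)) {w : K3 → ℝ} (h0 : ∀ k, 0 ≤ w k)
    (hw : ∀ k, w k ≤ (N k : ℝ) ^ 4) :
    ContinuousOn (fun s => ∑' k, w k * ‖fr (f s) k‖ ^ 2) (Ico 0 T) := by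
  intro t ht
  obtain ⟨b, hb1, hb2⟩ := exists_between ht.2
  obtain ⟨C1, hC1⟩ := unif_sum hf hp hb2 4
  obtain ⟨C0, hC0⟩ := unif_decay hf hp hb2 0
  have hc0 : 0 ≤ C0 := (mul_nonneg (by positivity) (norm_nonneg _)).trans (hC0 t ⟨ht.1, hb1.le⟩ 0)
  have hfc : ∀ k, ContinuousOn (fun s => fr (f s) k) (Ico 0 T) := by
    intro k
    have hre : Continuous fun x : V => (ee (-k) x).re := Complex.continuous_re.comp (ee_continuous _)
    have him : Continuous fun x : V => (ee (-k) x).im := Complex.continuous_im.comp (ee_continuous _)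
    have h1 := continuousOn_int (T := T) (F := fun s x => (ee (-k) x).re * f s x)
      (((hre.comp continuous_snd).continuousOn).mul hf.continuousOn)
    have h2 := continuousOn_int (T := T) (F := fun s x => (ee (-k) x).im * f s x)
      (((him.comp continuous_snd).continuousOn).mul hf.continuousOn)
    have h3 := (Complex.continuous_ofReal.comp_continuousOn h1).add
      ((Complex.continuous_ofReal.comp_continuousOn h2).mul (continuousOn_const (c := Complex.I)))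
    refine h3.congr fun s hs => ?_
    rw [fr_eq (contDiff_slice hf hs).continuous]
    rfl
  have h2 : ContinuousOn (fun s => ∑' k, w k * ‖fr (f s) k‖ ^ 2) (Icc 0 b) := by
    refine continuousOn_tsum (u := fun k => C0 * (C1 * k3 k)) (fun k => ?_)
      ((summable_K3.mul_left C1).mul_left C0) fun k s hs => ?_
    · exact continuousOn_const.mul
        (((hfc k).mono fun s hs => ⟨hs.1, hs.2.trans_lt hb2⟩).norm.pow 2)
    · have h3 := hC1 s hs k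
      have h4 := hC0 s hs k
      rw [pow_zero, one_mul] at h4
      rw [Real.norm_eq_abs, abs_of_nonneg (mul_nonneg (h0 k) (by positivity))]
      calc w k * ‖fr (f s) k‖ ^ 2 ≤ (N k : ℝ) ^ 4 * (C0 * ‖fr (f s) k‖) := by
            rw [sq]
            gcongr
            exact hw k
        _ = C0 * ((N k : ℝ) ^ 4 * ‖fr (f s) k‖) := by ring
        _ ≤ _ := by gcongr
  have h5 := h2 t ⟨ht.1, hb1.le⟩
  refine h5.mono_of_mem_nhdsWithin ?_
  have h6 : ∀ᶠ s in 𝓝[Ico 0 T] t, s < b := nhdsWithin_le_nhds (Iio_mem_nhds hb1)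
  filter_upwards [h6, self_mem_nhdsWithin] with s hs1 hs2
  exact ⟨hs2.1, hs1.le⟩

end general

end Pool.Agent.TH305.FB
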