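import Pool.Agent.TH305.FB.Data

/-!
The a priori bound in terms of the Fourier coefficients of the solution.
-/

set_option autoImplicit false

open MeasureTheory Set Filter Topology
open H459R3.NS

namespace Pool.Agent.TH305.FB

theorem N_eq_norm (k : K3) : (N k : ℝ) = ‖k‖ := by
  refine le_antisymm ?_ ?_
  · obtain ⟨j, -, hj⟩ := Finset.exists_mem_eq_sup (Finset.univ : Finset (Fin 3))
      ⟨0, Finset.mem_univ 0⟩ (fun j => (k j).natAbs)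
    have h1 : N k = (k j).natAbs := hj
    have h2 : ((k j).natAbs : ℝ) = ‖k j‖ := by
      rw [Int.norm_eq_abs, ← Int.cast_abs, Int.abs_eq_natAbs]
      simp
    rw [h1, h2]
    exact norm_le_pi_norm k j
  · rw [pi_norm_le_iff_of_nonneg (by positivity)]
    intro j
    have h := (N_le_iff k (N k)).1 le_rfl j
    rw [Int.norm_eq_abs]
    exact_mod_cast h

theorem main {δ : ℝ} (hδ : 0 < δ) (hδ2 : δ < 4 / 5) :
    ∃ c : ℝ, 0 < c ∧ ∃ m : ℕ, ∀ ν : ℝ, 0 < ν → ∀ R : ℝ, ∃ L0 : ℝ, ∀ L : ℝ, L0 ≤ L → ∃ M : ℝ,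
      ∀ (T : ℝ) (u : ℝ → V → V) (p : ℝ → V → ℝ), IsSol ν T u p →
      (∀ k : K3, (1 + (N k : ℝ)) ^ m * am (uh u 0) k ≤ R) →
      ∀ ρ β : ℝ → ℝ, (∀ t ∈ Ioo 0 T, act ν (L ^ (4 / 5 - δ)) L (ρ t) (uh u t) ≤ β t) →
      IntegrableOn β (Ioo 0 T) → ∫ t in Ioo 0 T, β t ≤ c * Real.log L →
      ∀ t ∈ Ico 0 T, ∀ x i, |u t x i| ≤ M := by
  obtain ⟨κ, hκ⟩ := exists_nat_ge (4 / δ)
  have hκ' : 4 ≤ (κ : ℝ) * δ := by rwa [div_le_iff₀ hδ] at hκ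
  have hCk : 0 < Ck κ := lt_of_lt_of_le one_pos (one_le_Ck κ)
  refine ⟨1 / (100 * Ck κ ^ 2), by positivity, κ + 4, fun ν hν R => ?_⟩
  obtain ⟨L0, hL01, hL0⟩ := exists_L0 hδ hδ2 hκ' hν R
  refine ⟨L0, fun L hL => ⟨√(81 * L ^ 3 * (R ^ 2 * (1 + C4))) + √(3 * C4 * (ν ^ 2 / 2)), ?_⟩⟩
  intro T u p h hR ρ β hβ hβi hβB t ht x i
  obtain ⟨h1, h2, h3⟩ := hL0 L hL
  have hL1 : 1 ≤ L := hL01.trans hL
  have h0 : (0 : ℝ) ∈ Ico 0 T := ⟨le_rfl, ht.1.trans_lt ht.2⟩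
  have hU := rap_uh h h0
  have hE := EE_data (κ := κ) hU hR
  have hF := (FF_data (κ := κ) (L := L) (by linarith) hU hR).trans h3
  refine abs_le (κ := κ) h hν hL1 hE ht ?_ x i
  refine core h hν hL1 (Real.one_le_rpow hL1 (by linarith)) (Real.rpow_pos_of_pos (by linarith) _)
    hE h1 h2 hF hβ hβi ?_ ht
  rw [← le_div_iff₀' (by positivity)]
  calc ∫ t in Ioo 0 T, β t ≤ 1 / (100 * Ck κ ^ 2) * Real.log L := hβB
    _ = _ := by ring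

theorem data_decay {ν T : ℝ} {u : ℝ → V → V} {p : ℝ → V → ℝ} (h : IsSol ν T u p) (hT : 0 < T)
    (m : ℕ) : ∃ R : ℝ, ∀ k : K3, (1 + (N k : ℝ)) ^ m * am (uh u 0) k ≤ R := by
  have h0 : (0 : ℝ) ∈ Ico 0 T := ⟨le_rfl, hT⟩
  choose C0 hC0 using fun i => N_pow_fr (h.sp h0 i) 0
  choose C1 hC1 using fun i => N_pow_fr (h.sp h0 i) m
  refine ⟨∑ i, 2 ^ m * (C0 i + C1 i), fun k => ?_⟩
  unfold am
  rw [Finset.mul_sum]
  refine Finset.sum_le_sum fun i _ => ?_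
  have hN : (0 : ℝ) ≤ N k := by positivity
  have a0 := hC0 i k
  have a1 := hC1 i k
  rw [pow_zero, one_mul] at a0
  have h2 : (1 + (N k : ℝ)) ^ m ≤ 2 ^ m * (1 + (N k : ℝ) ^ m) := by
    rcases le_total (N k : ℝ) 1 with h | h
    · calc (1 + (N k : ℝ)) ^ m ≤ (1 + 1) ^ m := by gcongr
        _ = 2 ^ m * 1 := by norm_num
        _ ≤ 2 ^ m * (1 + (N k : ℝ) ^ m) := by
          gcongr
          linarith [pow_nonneg hN m]
    · calc (1 + (N k : ℝ)) ^ m ≤ ((N k : ℝ) + (N k : ℝ)) ^ m := by gcongr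
        _ = 2 ^ m * (N k : ℝ) ^ m := by rw [← two_mul, mul_pow]
        _ ≤ 2 ^ m * (1 + (N k : ℝ) ^ m) := by
          gcongr
          linarith
  calc (1 + (N k : ℝ)) ^ m * ‖uh u 0 i k‖
      ≤ 2 ^ m * (1 + (N k : ℝ) ^ m) * ‖uh u 0 i k‖ := by gcongr
    _ = 2 ^ m * (‖uh u 0 i k‖ + (N k : ℝ) ^ m * ‖uh u 0 i k‖) := by ring
    _ ≤ 2 ^ m * (C0 i + C1 i) := by
        gcongr
        · exact a0
        · exact a1

end Pool.Agent.TH305.FB
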