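import Pool.Agent.TH305.FB.Main

/-!
An a priori bound for smooth periodic solutions of the three-dimensional Navier-Stokes equations
from one band of frequencies; every blow-up is active in every band `[L^(4/5-δ), L]`, and the
activity grows at least like `log L`.
-/

open MeasureTheory Set H459R3.NS

set_option autoImplicit false

namespace Pool.Agent.TH305.FB.Res

/-- The size of the field `v` at the frequency `k`: the sum over the three components of the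
absolute values of the Fourier coefficients `∫ exp(-2πi k·x) vᵢ(x) dx` over the period cell. -/
noncomputable def size (v : V → V) (k : Fin 3 → ℤ) : ℝ := ∑ i, ‖fr (fun x => v x i) k‖

/-- The activity of `v` in the band of the frequencies `k` with `a ≤ ‖k‖ ≤ b` (maximum norm),
split at `ρ`: the sum of `‖k‖ |v̂(k)|` over the `k` in the band with `‖k‖ ≤ ρ`, plus `1/ν` times the
square of the sum of `|v̂(k)|` over the `k` in the band with `‖k‖ > ρ`. -/
noncomputable def activity (ν a b ρ : ℝ) (v : V → V) : ℝ :=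
  (∑' k : Fin 3 → ℤ, if a ≤ ‖k‖ ∧ ‖k‖ ≤ b ∧ ‖k‖ ≤ ρ then ‖k‖ * size v k else 0)
  + (∑' k : Fin 3 → ℤ, if a ≤ ‖k‖ ∧ ‖k‖ ≤ b ∧ ρ < ‖k‖ then size v k else 0) ^ 2 / ν

theorem activity_eq (ν a b ρ : ℝ) (u : ℝ → V → V) (t : ℝ) :
    activity ν a b ρ (u t) = Pool.Agent.TH305.FB.act ν a b ρ (Pool.Agent.TH305.FB.uh u t) := by
  unfold activity Pool.Agent.TH305.FB.act
  have e1 : (fun k : Fin 3 → ℤ => if a ≤ ‖k‖ ∧ ‖k‖ ≤ b ∧ ‖k‖ ≤ ρ then ‖k‖ * size (u t) k else 0)
      = fun k => {k : K3 | a ≤ (N k : ℝ) ∧ (N k : ℝ) ≤ b ∧ (N k : ℝ) ≤ ρ}.indicator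
        (fun k => (N k : ℝ) * Pool.Agent.TH305.FB.am (Pool.Agent.TH305.FB.uh u t) k) k := by
    funext k
    classical
    rw [Set.indicator_apply]
    simp only [Set.mem_ofPred_eq, Pool.Agent.TH305.FB.N_eq_norm]
    rfl
  have e2 : (fun k : Fin 3 → ℤ => if a ≤ ‖k‖ ∧ ‖k‖ ≤ b ∧ ρ < ‖k‖ then size (u t) k else 0)
      = fun k => {k : K3 | a ≤ (N k : ℝ) ∧ (N k : ℝ) ≤ b ∧ ρ < (N k : ℝ)}.indicator
        (Pool.Agent.TH305.FB.am (Pool.Agent.TH305.FB.uh u t)) k := by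
    funext k
    classical
    rw [Set.indicator_apply]
    simp only [Set.mem_ofPred_eq, Pool.Agent.TH305.FB.N_eq_norm]
    rfl
  rw [e1, e2]

/-- Let `0 < δ < 4/5`. There are `c > 0` and `m`, which depend on `δ` only, such that for all
`ν > 0` and `R` there is `L₀` such that for every `L ≥ L₀` there is `M` with the following property.

Let `(u, p)` be a smooth `1`-periodic solution of the Navier-Stokes equations with viscosity `ν`,
without force, on a time interval `[0, T)` of any length, with `(1 + ‖k‖)^m |û(0)(k)| ≤ R` for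
all `k`. If for some functions `ρ` and `β` the activity of `u(t)` in the band
`L^(4/5-δ) ≤ ‖k‖ ≤ L`, split at `ρ(t)`, is at most `β(t)` for all `t ∈ (0, T)`, and
`∫₀ᵀ β ≤ c log L`, then `|u| ≤ M` on `[0, T) × ℝ³`.

Thus, if the velocity is unbounded, then `∫₀ᵀ β > c log L` for every band with `L ≥ L₀`, every
splitting `ρ` and every integrable `β` as above. -/
theorem result (δ : ℝ) (hδ : 0 < δ) (hδ' : δ < 4 / 5) :
    ∃ c : ℝ, 0 < c ∧ ∃ m : ℕ,
      ∀ ν : ℝ, 0 < ν → ∀ R : ℝ, ∃ L₀ : ℝ, ∀ L : ℝ, L₀ ≤ L → ∃ M : ℝ,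
        ∀ (T : ℝ) (u : ℝ → V → V) (p : ℝ → V → ℝ), IsSol ν T u p →
        (∀ k : Fin 3 → ℤ, (1 + ‖k‖) ^ m * size (u 0) k ≤ R) →
        ∀ ρ β : ℝ → ℝ, (∀ t ∈ Ioo 0 T, activity ν (L ^ (4 / 5 - δ)) L (ρ t) (u t) ≤ β t) →
        IntegrableOn β (Ioo 0 T) → ∫ t in Ioo 0 T, β t ≤ c * Real.log L →
        ∀ t ∈ Ico 0 T, ∀ x i, |u t x i| ≤ M := by
  obtain ⟨c, hc, m, h⟩ := Pool.Agent.TH305.FB.main hδ hδ'
  refine ⟨c, hc, m, fun ν hν R => ?_⟩
  obtain ⟨L0, hL0⟩ := h ν hν R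
  refine ⟨L0, fun L hL => ?_⟩
  obtain ⟨M, hM⟩ := hL0 L hL
  refine ⟨M, fun T u p hs hR ρ β hβ => ?_⟩
  refine hM T u p hs (fun k => ?_) ρ β (fun t ht => ?_)
  · have := hR k
    rw [Pool.Agent.TH305.FB.N_eq_norm]
    exact this
  · rw [← activity_eq]
    exact hβ t ht

end Pool.Agent.TH305.FB.Res
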