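import Pool.Agent.TH305.FB.Wt
import Pool.Agent.H459R3.NS.Tril

/-!
The bound of the weighted trilinear form.
-/

set_option autoImplicit false

open H459R3.NS

namespace Pool.Agent.TH305.FB

theorem N_add_le (p q : K3) : N (p + q) ≤ N p + N q := by
  rw [N_le_iff]
  intro j
  have h1 := (N_le_iff p (N p)).1 le_rfl j
  have h2 := (N_le_iff q (N q)).1 le_rfl j
  rw [Pi.add_apply]
  push_cast
  exact (abs_add_le _ _).trans (add_le_add h1 h2)

theorem N_neg_sub (p q : K3) : N (-p - q) = N (p + q) := by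
  rw [← N_neg]
  congr 1
  abel

/-- The weight of a frequency. -/
noncomputable def wt (κ : ℕ) (L : ℝ) (k : K3) : ℝ := psi κ L (N k)

variable {κ : ℕ} {L : ℝ}

theorem wt_nonneg (hL : 0 < L) (k : K3) : 0 ≤ wt κ L k := psi_nonneg hL (by positivity)

theorem wt_neg (k : K3) : wt κ L (-k) = wt κ L k := by rw [wt, wt, N_neg]

theorem wt_le (hL : 0 < L) (k : K3) : wt κ L k ≤ (N k : ℝ) ^ 2 := psi_le_sq hL (by positivity)

theorem triad_wt (hL : 0 < L) (p q : K3) :
    |wt κ L (-p - q) - wt κ L q| * N q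
      ≤ Ck κ * min (N p : ℝ) (N q) * (wt κ L p + wt κ L q) := by
  have h1 : ((N (-p - q) : ℕ) : ℝ) ≤ N p + N q := by
    rw [N_neg_sub]; exact_mod_cast N_add_le p q
  have h2 : ((N q : ℕ) : ℝ) ≤ N p + N (-p - q) := by
    have := N_add_le (-p) (-(-p - q))
    rw [show -p + -(-p - q) = q by abel, N_neg, N_neg] at this
    exact_mod_cast this
  exact triad hL (by positivity) (by positivity) (by positivity) h1 h2

/-! ### real sequences -/

/-- The trilinear form of real sequences. -/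
theorem summable_tri_real {x y z : K3 → ℝ} (hx0 : ∀ k, 0 ≤ x k) (hy0 : ∀ k, 0 ≤ y k)
    (hz0 : ∀ k, 0 ≤ z k) (hx : Summable x) (hy : Summable y) (hz : Summable z) :
    Summable fun p : K3 × K3 => x p.1 * (y p.2 * z (-p.1 - p.2)) := by
  have hM : ∀ k, z k ≤ ∑' m, z m := fun k => hz.le_tsum k fun _ _ => hz0 _
  refine Summable.of_nonneg_of_le
    (fun p => mul_nonneg (hx0 _) (mul_nonneg (hy0 _) (hz0 _)))
    (fun p => ?_) ((Summable.mul_of_nonneg hx hy hx0 hy0).mul_right (∑' m, z m))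
  rw [← mul_assoc]
  exact mul_le_mul_of_nonneg_left (hM _) (mul_nonneg (hx0 _) (hy0 _))

theorem summable_sq_real {z : K3 → ℝ} (hz0 : ∀ k, 0 ≤ z k) (hz : Summable z) :
    Summable fun k => z k ^ 2 := by
  have hM : ∀ k, z k ≤ ∑' m, z m := fun k => hz.le_tsum k fun _ _ => hz0 _
  refine Summable.of_nonneg_of_le (fun p => by positivity) (fun p => ?_)
    (hz.mul_left (∑' m, z m))
  rw [sq]
  exact mul_le_mul_of_nonneg_right (hM p) (hz0 p)

theorem hasSum_prod_real {x y : K3 → ℝ} (hx0 : ∀ k, 0 ≤ x k) (hy0 : ∀ k, 0 ≤ y k)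
    (hx : Summable x) (hy : Summable y) :
    HasSum (fun p : K3 × K3 => x p.1 * y p.2) ((∑' k, x k) * ∑' k, y k) :=
  hx.hasSum.mul hy.hasSum (Summable.mul_of_nonneg hx hy hx0 hy0)

theorem hasSum_prod_real' {x y : K3 → ℝ} (hx0 : ∀ k, 0 ≤ x k) (hy0 : ∀ k, 0 ≤ y k)
    (hx : Summable x) (hy : Summable y) :
    HasSum (fun p : K3 × K3 => x p.1 * y (-p.1 - p.2)) ((∑' k, x k) * ∑' k, y k) := by
  have h := hasSum_prod_real hx0 hy0 hx hy
  rw [← inv23.hasSum_iff] at h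
  exact h

theorem tri_amgm {x y z : K3 → ℝ} (hx0 : ∀ k, 0 ≤ x k) (hy0 : ∀ k, 0 ≤ y k)
    (hz0 : ∀ k, 0 ≤ z k) (hx : Summable x) (hy : Summable y) (hz : Summable z) {lam : ℝ}
    (hl : 0 < lam) :
    ∑' p : K3 × K3, x p.1 * (y p.2 * z (-p.1 - p.2))
      ≤ (∑' k, x k) * (lam / 2 * (∑' k, y k ^ 2) + (∑' k, z k ^ 2) / (2 * lam)) := by
  have h1 := (hasSum_prod_real hx0 (fun k => sq_nonneg (y k)) hx (summable_sq_real hy0 hy)).mul_left
    (lam / 2)
  have h2 := (hasSum_prod_real' hx0 (fun k => sq_nonneg (z k)) hx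
    (summable_sq_real hz0 hz)).mul_left (1 / (2 * lam))
  have h3 := h1.add h2
  refine (Summable.tsum_le_tsum (fun p => ?_) (summable_tri_real hx0 hy0 hz0 hx hy hz)
    h3.summable).trans (le_of_eq ?_)
  · have h4 : y p.2 * z (-p.1 - p.2)
        ≤ lam / 2 * y p.2 ^ 2 + 1 / (2 * lam) * z (-p.1 - p.2) ^ 2 := by
      have h5 : 0 ≤ (lam * y p.2 - z (-p.1 - p.2)) ^ 2 / (2 * lam) := by positivity
      have h6 : (lam * y p.2 - z (-p.1 - p.2)) ^ 2 / (2 * lam)
          = lam / 2 * y p.2 ^ 2 + 1 / (2 * lam) * z (-p.1 - p.2) ^ 2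
            - y p.2 * z (-p.1 - p.2) := by
        field_simp
        ring
      linarith
    have h7 := mul_le_mul_of_nonneg_left h4 (hx0 p.1)
    calc x p.1 * (y p.2 * z (-p.1 - p.2))
        ≤ x p.1 * (lam / 2 * y p.2 ^ 2 + 1 / (2 * lam) * z (-p.1 - p.2) ^ 2) := h7
      _ = _ := by ring
  · rw [h3.tsum_eq]
    ring

/-! ### vector sequences -/

variable {U : Fin 3 → K3 → ℂ}

/-- The size of a coefficient. -/
noncomputable def am (U : Fin 3 → K3 → ℂ) (k : K3) : ℝ := ∑ i, ‖U i k‖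

theorem am_nonneg (U : Fin 3 → K3 → ℂ) (k : K3) : 0 ≤ am U k :=
  Finset.sum_nonneg fun _ _ => norm_nonneg _

/-- The sum of the squares of the components. -/
noncomputable def e2 (U : Fin 3 → K3 → ℂ) (k : K3) : ℝ := ∑ i, ‖U i k‖ ^ 2

theorem e2_nonneg (U : Fin 3 → K3 → ℂ) (k : K3) : 0 ≤ e2 U k :=
  Finset.sum_nonneg fun _ _ => by positivity

theorem am_sq_le (U : Fin 3 → K3 → ℂ) (k : K3) : am U k ^ 2 ≤ 3 * e2 U k := by
  unfold am e2
  rw [Fin.sum_univ_three, Fin.sum_univ_three]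
  nlinarith [sq_nonneg (‖U 0 k‖ - ‖U 1 k‖), sq_nonneg (‖U 0 k‖ - ‖U 2 k‖),
    sq_nonneg (‖U 1 k‖ - ‖U 2 k‖)]

theorem e2_le (U : Fin 3 → K3 → ℂ) (k : K3) : e2 U k ≤ am U k ^ 2 := by
  unfold am e2
  rw [Fin.sum_univ_three, Fin.sum_univ_three]
  nlinarith [norm_nonneg (U 0 k), norm_nonneg (U 1 k), norm_nonneg (U 2 k),
    mul_nonneg (norm_nonneg (U 0 k)) (norm_nonneg (U 1 k)),
    mul_nonneg (norm_nonneg (U 0 k)) (norm_nonneg (U 2 k)),
    mul_nonneg (norm_nonneg (U 1 k)) (norm_nonneg (U 2 k))]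

theorem summable_am_pow (hU : ∀ i, Rap (U i)) (n : ℕ) : Summable fun k => (N k : ℝ) ^ n * am U k := by
  unfold am
  simp_rw [Finset.mul_sum]
  exact summable_sum fun i _ => hU i n

theorem summable_am (hU : ∀ i, Rap (U i)) : Summable (am U) := by
  simpa using summable_am_pow hU 0

/-- Multiplication by the weight. -/
theorem Rap.wtmul (hL : 0 < L) {a : K3 → ℂ} (h : Rap a) : Rap fun k => (wt κ L k : ℂ) * a k := by
  intro n
  refine Summable.of_nonneg_of_le (fun k => by positivity) (fun k => ?_) (h (n + 2))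
  rw [norm_mul, Complex.norm_real, Real.norm_eq_abs, abs_of_nonneg (wt_nonneg hL k)]
  calc (N k : ℝ) ^ n * (wt κ L k * ‖a k‖) ≤ (N k : ℝ) ^ n * ((N k : ℝ) ^ 2 * ‖a k‖) := by
        gcongr
        exact wt_le hL k
    _ = (N k : ℝ) ^ (n + 2) * ‖a k‖ := by ring

/-- The weighted convection form. -/
noncomputable def CI (κ : ℕ) (L : ℝ) (U : Fin 3 → K3 → ℂ) : ℂ :=
  ∑ i, ∑ j, Tri (U j) (D j (U i)) (fun k => (wt κ L k : ℂ) * ((wt κ L k : ℂ) * U i k))

theorem tri_skew {a b : K3 → ℂ} (ha : Rap a) (hb : Rap b) (j : Fin 3) :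
    2 * Tri a (D j b) b = -Tri (D j a) b b := by
  have h1 := tri_D2 ha hb hb j
  have h2 : Tri a b (D j b) = Tri a (D j b) b := tri_comm23 _ _ _
  rw [h2] at h1
  linear_combination h1

theorem tri_sum1 {ι : Type*} (s : Finset ι) {a : ι → K3 → ℂ} {b c : K3 → ℂ}
    (ha : ∀ i, Summable (a i)) (hb : Summable b) (hc : Summable c) :
    Tri (fun k => ∑ i ∈ s, a i k) b c = ∑ i ∈ s, Tri (a i) b c := by
  unfold Tri
  rw [← Summable.tsum_finsetSum fun i _ => summable_tri (ha i) hb hc]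
  refine tsum_congr fun p => ?_
  rw [Finset.sum_mul, Finset.sum_mul]

theorem skew_zero (hU : ∀ i, Rap (U i)) (hdiv : ∀ k, ∑ j, (k j : ℂ) * U j k = 0)
    {b : K3 → ℂ} (hb : Rap b) : ∑ j, Tri (U j) (D j b) b = 0 := by
  have h1 : ∑ j, 2 * Tri (U j) (D j b) b = 0 := by
    have h2 : ∀ j, 2 * Tri (U j) (D j b) b = -Tri (D j (U j)) b b := fun j => tri_skew (hU j) hb j
    rw [Finset.sum_congr rfl fun j _ => h2 j, Finset.sum_neg_distrib,
      ← tri_sum1 Finset.univ (fun j => ((hU j).D j).summable) hb.summable hb.summable]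
    have h3 : (fun k => ∑ j, D j (U j) k) = fun _ => 0 := by
      funext k
      unfold D
      have := hdiv k
      calc ∑ j, 2 * (Real.pi : ℂ) * Complex.I * (k j : ℂ) * U j k
          = 2 * Real.pi * Complex.I * ∑ j, (k j : ℂ) * U j k := by
            rw [Finset.mul_sum]
            exact Finset.sum_congr rfl fun j _ => by ring
        _ = 0 := by rw [this, mul_zero]
    rw [h3]
    unfold Tri
    simp
  rw [← Finset.mul_sum] at h1
  simpa using h1

/-- The integrand of the weighted convection form. -/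
noncomputable def kr (κ : ℕ) (L : ℝ) (U : Fin 3 → K3 → ℂ) (p q : K3) : ℂ :=
  ∑ i, ∑ j, (((wt κ L (-p - q) - wt κ L q) * wt κ L (-p - q) : ℝ) : ℂ)
          * (2 * Real.pi * Complex.I * (q j : ℂ)) * (U j p * (U i q * U i (-p - q)))

/-- The bound of the integrand. -/
noncomputable def krb (κ : ℕ) (L : ℝ) (U : Fin 3 → K3 → ℂ) (p q : K3) : ℝ :=
  2 * Real.pi * (|wt κ L (-p - q) - wt κ L q| * N q)
      * (am U p * (am U q * (wt κ L (-p - q) * am U (-p - q))))

theorem CI_eq1 (hL : 0 < L) (hU : ∀ i, Rap (U i)) (hdiv : ∀ k, ∑ j, (k j : ℂ) * U j k = 0) :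
    CI κ L U = ∑ i, ∑ j, (Tri (U j) (D j (U i))
      (fun k => (wt κ L k : ℂ) * ((wt κ L k : ℂ) * U i k))
      - Tri (U j) (D j (fun k => (wt κ L k : ℂ) * U i k)) (fun k => (wt κ L k : ℂ) * U i k)) := by
  have hw : ∀ i, Rap fun k => (wt κ L k : ℂ) * U i k := fun i => Rap.wtmul hL (hU i)
  have hz : ∑ i, ∑ j, Tri (U j) (D j (fun k => (wt κ L k : ℂ) * U i k))
      (fun k => (wt κ L k : ℂ) * U i k) = 0 :=
    Finset.sum_eq_zero fun i _ => skew_zero hU hdiv (hw i)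
  rw [← sub_zero (CI κ L U), ← hz, CI, ← Finset.sum_sub_distrib]
  exact Finset.sum_congr rfl fun i _ => by rw [← Finset.sum_sub_distrib]

theorem CI_term (hL : 0 < L) (hU : ∀ i, Rap (U i)) (i j : Fin 3) :
    HasSum (fun p : K3 × K3 =>
      (((wt κ L (-p.1 - p.2) - wt κ L p.2) * wt κ L (-p.1 - p.2) : ℝ) : ℂ)
          * (2 * Real.pi * Complex.I * (p.2 j : ℂ)) * (U j p.1 * (U i p.2 * U i (-p.1 - p.2))))
      (Tri (U j) (D j (U i)) (fun k => (wt κ L k : ℂ) * ((wt κ L k : ℂ) * U i k))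
      - Tri (U j) (D j (fun k => (wt κ L k : ℂ) * U i k)) (fun k => (wt κ L k : ℂ) * U i k)) := by
  have hw : ∀ i, Rap fun k => (wt κ L k : ℂ) * U i k := fun i => Rap.wtmul hL (hU i)
  have hww : ∀ i, Rap fun k => (wt κ L k : ℂ) * ((wt κ L k : ℂ) * U i k) :=
    fun i => Rap.wtmul hL (hw i)
  have hs1 := (summable_tri (hU j).summable ((hU i).D j).summable (hww i).summable).hasSum
  have hs2 := (summable_tri (hU j).summable ((hw i).D j).summable (hw i).summable).hasSum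
  have h3 := hs1.sub hs2
  have h4 : (fun p : K3 × K3 =>
      (((wt κ L (-p.1 - p.2) - wt κ L p.2) * wt κ L (-p.1 - p.2) : ℝ) : ℂ)
          * (2 * Real.pi * Complex.I * (p.2 j : ℂ)) * (U j p.1 * (U i p.2 * U i (-p.1 - p.2))))
      = fun p : K3 × K3 => U j p.1 * D j (U i) p.2
          * ((wt κ L (-p.1 - p.2) : ℂ) * ((wt κ L (-p.1 - p.2) : ℂ) * U i (-p.1 - p.2)))
        - U j p.1 * D j (fun k => (wt κ L k : ℂ) * U i k) p.2
          * ((wt κ L (-p.1 - p.2) : ℂ) * U i (-p.1 - p.2)) := by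
    funext p
    unfold D
    push_cast
    ring
  rw [h4]
  exact h3

theorem CI_hasSum (hL : 0 < L) (hU : ∀ i, Rap (U i)) (hdiv : ∀ k, ∑ j, (k j : ℂ) * U j k = 0) :
    HasSum (fun p : K3 × K3 => kr κ L U p.1 p.2) (CI κ L U) := by
  rw [CI_eq1 hL hU hdiv]
  unfold kr
  exact hasSum_sum fun i _ => hasSum_sum fun j _ => CI_term hL hU i j

theorem kr_le (hL : 0 < L) (p q : K3) : ‖kr κ L U p q‖ ≤ krb κ L U p q := by
  unfold kr krb
  generalize hk : -p - q = k
  have hwk := wt_nonneg (κ := κ) hL k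
  have hpi := Real.pi_pos
  have e4 : ∀ i j, ‖(((wt κ L k - wt κ L q) * wt κ L k : ℝ) : ℂ)
          * (2 * Real.pi * Complex.I * (q j : ℂ)) * (U j p * (U i q * U i k))‖
      ≤ (2 * Real.pi * (|wt κ L k - wt κ L q| * N q) * wt κ L k)
        * (‖U j p‖ * (‖U i q‖ * ‖U i k‖)) := by
    intro i j
    rw [norm_mul, norm_mul, norm_mul, norm_mul, norm_mul, norm_mul, norm_mul,
      Complex.norm_real, Complex.norm_real, Complex.norm_I, Complex.norm_ofNat, Real.norm_eq_abs,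
      Real.norm_eq_abs, abs_mul, abs_of_nonneg hwk, abs_of_pos hpi]
    have h5 := abs_le_N q j
    have h6 : 0 ≤ |wt κ L k - wt κ L q| := abs_nonneg _
    calc |wt κ L k - wt κ L q| * wt κ L k * (2 * Real.pi * 1 * ‖(q j : ℂ)‖)
          * (‖U j p‖ * (‖U i q‖ * ‖U i k‖))
        ≤ |wt κ L k - wt κ L q| * wt κ L k * (2 * Real.pi * 1 * (N q : ℝ))
          * (‖U j p‖ * (‖U i q‖ * ‖U i k‖)) := by gcongr
      _ = _ := by ring
  have h7 : ∑ i, ‖U i q‖ * ‖U i k‖ ≤ am U q * am U k := by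
    unfold am
    rw [Fin.sum_univ_three, Fin.sum_univ_three, Fin.sum_univ_three]
    nlinarith [mul_nonneg (norm_nonneg (U 0 q)) (norm_nonneg (U 1 k)),
      mul_nonneg (norm_nonneg (U 0 q)) (norm_nonneg (U 2 k)),
      mul_nonneg (norm_nonneg (U 1 q)) (norm_nonneg (U 0 k)),
      mul_nonneg (norm_nonneg (U 1 q)) (norm_nonneg (U 2 k)),
      mul_nonneg (norm_nonneg (U 2 q)) (norm_nonneg (U 0 k)),
      mul_nonneg (norm_nonneg (U 2 q)) (norm_nonneg (U 1 k))]
  have h8 : 0 ≤ 2 * Real.pi * (|wt κ L k - wt κ L q| * N q) * wt κ L k := by positivity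
  have h9 : ‖∑ i, ∑ j, (((wt κ L k - wt κ L q) * wt κ L k : ℝ) : ℂ)
          * (2 * Real.pi * Complex.I * (q j : ℂ)) * (U j p * (U i q * U i k))‖
      ≤ ∑ i, ∑ j, (2 * Real.pi * (|wt κ L k - wt κ L q| * N q) * wt κ L k)
        * (‖U j p‖ * (‖U i q‖ * ‖U i k‖)) :=
    (norm_sum_le _ _).trans (Finset.sum_le_sum fun i _ =>
      (norm_sum_le _ _).trans (Finset.sum_le_sum fun j _ => e4 i j))
  have h10 : ∑ i, ∑ j, (2 * Real.pi * (|wt κ L k - wt κ L q| * N q) * wt κ L k)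
        * (‖U j p‖ * (‖U i q‖ * ‖U i k‖))
      = (2 * Real.pi * (|wt κ L k - wt κ L q| * N q) * wt κ L k)
        * (am U p * ∑ i, ‖U i q‖ * ‖U i k‖) := by
    rw [am, Finset.mul_sum, Finset.mul_sum]
    refine Finset.sum_congr rfl fun i _ => ?_
    rw [← Finset.mul_sum, Finset.sum_mul]
  refine (h9.trans (le_of_eq h10)).trans ?_
  calc (2 * Real.pi * (|wt κ L k - wt κ L q| * N q) * wt κ L k)
        * (am U p * ∑ i, ‖U i q‖ * ‖U i k‖)
      ≤ (2 * Real.pi * (|wt κ L k - wt κ L q| * N q) * wt κ L k)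
        * (am U p * (am U q * am U k)) :=
        mul_le_mul_of_nonneg_left (mul_le_mul_of_nonneg_left h7 (am_nonneg U _)) h8
    _ = _ := by ring

theorem krb_nonneg (hL : 0 < L) (p q : K3) : 0 ≤ krb κ L U p q :=
  (norm_nonneg _).trans (kr_le hL p q)

theorem krb_le (hL : 0 < L) (p q : K3) : krb κ L U p q ≤ 2 * Real.pi *
    (((1 + (N p : ℝ)) ^ 2 * am U p) * (((1 + (N q : ℝ)) ^ 3 * am U q) *
      ((N (-p - q) : ℝ) ^ 2 * am U (-p - q)))) := by
  unfold krb
  have h1 := am_nonneg U p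
  have h2 := am_nonneg U q
  have h3 := am_nonneg U (-p - q)
  have hp := Real.pi_pos
  have a4 : ((N (-p - q) : ℕ) : ℝ) ≤ N p + N q := by
    rw [N_neg_sub]; exact_mod_cast N_add_le p q
  have a1 := wt_le (κ := κ) hL (-p - q)
  have hwk := wt_nonneg (κ := κ) hL (-p - q)
  have a2 := wt_le (κ := κ) hL q
  have a3 := wt_nonneg (κ := κ) hL q
  have hN1 : (0 : ℝ) ≤ N p := by positivity
  have hN2 : (0 : ℝ) ≤ N q := by positivity
  have hN3 : (0 : ℝ) ≤ N (-p - q) := by positivity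
  generalize (N p : ℝ) = x at *
  generalize (N q : ℝ) = y at *
  generalize (N (-p - q) : ℝ) = z at *
  generalize wt κ L (-p - q) = w at *
  generalize wt κ L q = v at *
  generalize am U p = a at *
  generalize am U q = b at *
  generalize am U (-p - q) = c at *
  have a5 : z ^ 2 ≤ (x + y) ^ 2 := by gcongr
  have a6 : (x + y) ^ 2 ≤ (1 + x) ^ 2 * (1 + y) ^ 2 := by
    rw [← mul_pow]
    have : x + y ≤ (1 + x) * (1 + y) := by nlinarith [mul_nonneg hN1 hN2]
    gcongr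
  have a7 : y ^ 2 ≤ (1 + x) ^ 2 * (1 + y) ^ 2 := by
    refine le_trans ?_ a6
    gcongr
    linarith
  have h4 : |w - v| ≤ (1 + x) ^ 2 * (1 + y) ^ 2 := by
    rw [abs_le]
    constructor <;> linarith
  have h5 : |w - v| * y ≤ ((1 + x) ^ 2 * (1 + y) ^ 2) * (1 + y) :=
    mul_le_mul h4 (by linarith) hN2 (by positivity)
  have h6 : a * (b * (w * c)) ≤ a * (b * (z ^ 2 * c)) := by gcongr
  calc 2 * Real.pi * (|w - v| * y) * (a * (b * (w * c)))
      ≤ 2 * Real.pi * (((1 + x) ^ 2 * (1 + y) ^ 2) * (1 + y)) * (a * (b * (z ^ 2 * c))) := by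
        gcongr
    _ = _ := by ring

theorem summable_krb (hL : 0 < L) (hU : ∀ i, Rap (U i)) :
    Summable fun p : K3 × K3 => krb κ L U p.1 p.2 := by
  have hb : Summable fun k => (N k : ℝ) ^ 2 * am U k := summable_am_pow hU 2
  have hx : Summable fun k => (1 + (N k : ℝ)) ^ 2 * am U k := by
    have := ((summable_am_pow hU 0).add ((summable_am_pow hU 1).mul_left 2)).add hb
    refine this.congr fun k => by ring
  have hy : Summable fun k => (1 + (N k : ℝ)) ^ 3 * am U k := by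
    have := (((summable_am_pow hU 0).add ((summable_am_pow hU 1).mul_left 3)).add
      ((summable_am_pow hU 2).mul_left 3)).add (summable_am_pow hU 3)
    refine this.congr fun k => by ring
  have hS := (summable_tri_real (x := fun k => (1 + (N k : ℝ)) ^ 2 * am U k)
    (y := fun k => (1 + (N k : ℝ)) ^ 3 * am U k) (z := fun k => (N k : ℝ) ^ 2 * am U k)
    (fun k => mul_nonneg (by positivity) (am_nonneg U k))
    (fun k => mul_nonneg (by positivity) (am_nonneg U k))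
    (fun k => mul_nonneg (by positivity) (am_nonneg U k)) hx hy hb).mul_left (2 * Real.pi)
  exact Summable.of_nonneg_of_le (fun p => krb_nonneg hL _ _) (fun p => krb_le hL _ _) hS

theorem norm_CI_le (hL : 0 < L) (hU : ∀ i, Rap (U i)) (hdiv : ∀ k, ∑ j, (k j : ℂ) * U j k = 0) :
    ‖CI κ L U‖ ≤ ∑' p : K3 × K3, krb κ L U p.1 p.2 := by
  rw [← (CI_hasSum hL hU hdiv).tsum_eq]
  exact tsum_of_norm_bounded (summable_krb hL hU).hasSum fun p => kr_le hL _ _

end Pool.Agent.TH305.FB
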