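import Mathlib

/-!
The weight of the energy functional and the inequality for triads.
-/

set_option autoImplicit false

namespace Pool.Agent.TH305.FB

/-- The weight `r² (min r L / L)^κ`. -/
noncomputable def psi (κ : ℕ) (L r : ℝ) : ℝ := r ^ 2 * (min r L / L) ^ κ

variable {κ : ℕ} {L : ℝ}

theorem psi_nonneg (hL : 0 < L) {r : ℝ} (hr : 0 ≤ r) : 0 ≤ psi κ L r := by
  unfold psi
  have : 0 ≤ min r L := le_min hr hL.le
  positivity

theorem psi_mono (hL : 0 < L) {r s : ℝ} (hr : 0 ≤ r) (hrs : r ≤ s) : psi κ L r ≤ psi κ L s := by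
  unfold psi
  have h0 : 0 ≤ min r L := le_min hr hL.le
  have h1 : min r L ≤ min s L := min_le_min_right _ hrs
  gcongr

theorem psi_le_sq (hL : 0 < L) {r : ℝ} (hr : 0 ≤ r) : psi κ L r ≤ r ^ 2 := by
  unfold psi
  have h0 : 0 ≤ min r L := le_min hr hL.le
  have h1 : min r L / L ≤ 1 := by
    rw [div_le_one hL]; exact min_le_right _ _
  have h2 : (min r L / L) ^ κ ≤ 1 := pow_le_one₀ (by positivity) h1
  nlinarith [sq_nonneg r]

theorem psi_of_le (hL : 0 < L) {r : ℝ} (hr : L ≤ r) : psi κ L r = r ^ 2 := by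
  unfold psi
  rw [min_eq_right hr, div_self hL.ne', one_pow, mul_one]

theorem psi_le_pow (hL : 0 < L) {r : ℝ} (hr : 0 ≤ r) : psi κ L r ≤ r ^ (κ + 2) / L ^ κ := by
  unfold psi
  have h0 : 0 ≤ min r L := le_min hr hL.le
  have h1 : min r L ≤ r := min_le_left _ _
  rw [pow_add, mul_comm (r ^ κ), mul_div_assoc, ← div_pow]
  gcongr

/-- scaling from below -/
theorem psi_scale (hL : 0 < L) {r s : ℝ} (hs : 0 ≤ s) (hsr : s ≤ r) (hr : 0 < r) :
    (s / r) ^ (κ + 2) * psi κ L r ≤ psi κ L s := by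
  unfold psi
  have h0 : 0 ≤ min r L := le_min hr.le hL.le
  have ht0 : 0 ≤ s / r := by positivity
  have ht1 : s / r ≤ 1 := by rw [div_le_one hr]; exact hsr
  have h2 : s / r * min r L ≤ min s L := by
    refine le_min ?_ ?_
    · calc s / r * min r L ≤ s / r * r := by gcongr; exact min_le_left _ _
        _ = s := by field_simp
    · calc s / r * min r L ≤ 1 * L := by gcongr; exact min_le_right _ _
        _ = L := one_mul _
  calc (s / r) ^ (κ + 2) * (r ^ 2 * (min r L / L) ^ κ)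
      = s ^ 2 * ((s / r * min r L) / L) ^ κ := by
        rw [pow_add, mul_div_assoc (s / r), mul_pow (s / r)]
        field_simp
    _ ≤ s ^ 2 * (min s L / L) ^ κ := by gcongr

theorem psi_two_mul (hL : 0 < L) {r : ℝ} (hr : 0 ≤ r) :
    psi κ L (2 * r) ≤ 2 ^ (κ + 2) * psi κ L r := by
  rcases hr.eq_or_lt with rfl | h
  · simp [psi]
  have h1 := psi_scale (κ := κ) hL hr (by linarith : r ≤ 2 * r) (by linarith)
  have e : r / (2 * r) = 1 / 2 := by field_simp
  rw [e, one_div, inv_pow] at h1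
  rw [inv_mul_le_iff₀ (by positivity)] at h1
  exact h1

theorem psi_le_of_le_two (hL : 0 < L) {r s : ℝ} (hr : 0 ≤ r) (h : r ≤ 2 * s) :
    psi κ L r ≤ 2 ^ (κ + 2) * psi κ L s :=
  (psi_mono hL hr h).trans (psi_two_mul hL (by linarith))

theorem psi_sub_le (hL : 0 < L) {r s : ℝ} (hs : 0 ≤ s) (hsr : s ≤ r) (hr : 0 < r) :
    (psi κ L r - psi κ L s) * r ≤ (κ + 2) * (r - s) * psi κ L r := by
  have h1 := psi_scale (κ := κ) hL hs hsr hr
  have h2 := one_add_mul_le_pow (a := s / r - 1) (by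
    have : 0 ≤ s / r := by positivity
    linarith) (κ + 2)
  have e : 1 + (s / r - 1) = s / r := by ring
  rw [e] at h2
  push_cast at h2
  have h3 : (1 + ((κ : ℝ) + 2) * (s / r - 1)) * psi κ L r ≤ psi κ L s :=
    (mul_le_mul_of_nonneg_right h2 (psi_nonneg hL hr.le)).trans h1
  have h4 : psi κ L r - psi κ L s ≤ ((κ : ℝ) + 2) * (1 - s / r) * psi κ L r := by linarith
  calc (psi κ L r - psi κ L s) * r ≤ (((κ : ℝ) + 2) * (1 - s / r) * psi κ L r) * r := by gcongr
    _ = (κ + 2) * (r - s) * psi κ L r := by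
      field_simp

/-- The constant of the inequality for triads. -/
noncomputable def Ck (κ : ℕ) : ℝ := (κ + 2) * 2 ^ (κ + 2)

theorem Ck_ge (κ : ℕ) : (2 : ℝ) ^ (κ + 2) ≤ Ck κ := by
  unfold Ck
  have h : (0 : ℝ) < 2 ^ (κ + 2) := by positivity
  have h2 : (0 : ℝ) ≤ κ := by positivity
  nlinarith

theorem one_le_Ck (κ : ℕ) : 1 ≤ Ck κ := (one_le_pow₀ (by norm_num)).trans (Ck_ge κ)

/-- **The inequality for triads.** -/
theorem triad (hL : 0 < L) {P Q K : ℝ} (hP : 0 ≤ P) (hQ : 0 ≤ Q) (hK : 0 ≤ K) (h1 : K ≤ P + Q)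
    (h2 : Q ≤ P + K) :
    |psi κ L K - psi κ L Q| * Q ≤ Ck κ * min P Q * (psi κ L P + psi κ L Q) := by
  have pP := psi_nonneg (κ := κ) hL hP
  have pQ := psi_nonneg (κ := κ) hL hQ
  have pK := psi_nonneg (κ := κ) hL hK
  have hC0 : 0 < Ck κ := lt_of_lt_of_le one_pos (one_le_Ck κ)
  have hC := Ck_ge κ
  have habs : |psi κ L K - psi κ L Q| ≤ max (psi κ L K) (psi κ L Q) := by
    rw [abs_le]
    constructor
    · have := le_max_right (psi κ L K) (psi κ L Q)
      linarith
    · have := le_max_left (psi κ L K) (psi κ L Q)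
      linarith
  have hmin0 : 0 ≤ min P Q := le_min hP hQ
  rcases le_or_gt K (2 * Q) with h | h
  · -- comparable from above
    have hKQ : psi κ L K ≤ 2 ^ (κ + 2) * psi κ L Q := psi_le_of_le_two hL hK h
    have hQQ : psi κ L Q ≤ 2 ^ (κ + 2) * psi κ L Q := by
      have : (1 : ℝ) ≤ 2 ^ (κ + 2) := one_le_pow₀ (by norm_num)
      nlinarith
    suffices hs : |psi κ L K - psi κ L Q| * Q ≤ Ck κ * min P Q * psi κ L Q by
      refine hs.trans ?_
      have : 0 ≤ Ck κ * min P Q * psi κ L P := by positivity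
      nlinarith
    rcases min_cases P Q with ⟨hm, hPQ⟩ | ⟨hm, hPQ⟩
    · rw [hm]
      rcases hQ.eq_or_lt with rfl | hQ0
      · rw [mul_zero]; positivity
      rcases le_total K Q with hkq | hkq
      · have h3 := psi_sub_le (κ := κ) hL hK hkq hQ0
        rw [abs_sub_comm, abs_of_nonneg (by linarith [psi_mono (κ := κ) hL hK hkq])]
        refine h3.trans ?_
        have h4 : Q - K ≤ P := by linarith
        calc (κ + 2) * (Q - K) * psi κ L Q ≤ (κ + 2) * P * psi κ L Q := by gcongr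
          _ ≤ Ck κ * P * psi κ L Q := by
            gcongr
            unfold Ck
            have : (1 : ℝ) ≤ 2 ^ (κ + 2) := one_le_pow₀ (by norm_num)
            have h2 : (0 : ℝ) ≤ κ := by positivity
            nlinarith
      · have hK0 : 0 < K := hQ0.trans_le hkq
        have h3 := psi_sub_le (κ := κ) hL hQ hkq hK0
        have h3' : 0 ≤ psi κ L K - psi κ L Q := by linarith [psi_mono (κ := κ) hL hQ hkq]
        rw [abs_of_nonneg h3']
        calc (psi κ L K - psi κ L Q) * Q ≤ (psi κ L K - psi κ L Q) * K := by gcongr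
          _ ≤ (κ + 2) * (K - Q) * psi κ L K := h3
          _ ≤ (κ + 2) * P * (2 ^ (κ + 2) * psi κ L Q) := by
            gcongr
            linarith
          _ = Ck κ * P * psi κ L Q := by unfold Ck; ring
    · rw [hm]
      calc |psi κ L K - psi κ L Q| * Q ≤ (2 ^ (κ + 2) * psi κ L Q) * Q := by
            gcongr
            exact habs.trans (max_le hKQ hQQ)
        _ ≤ (Ck κ * psi κ L Q) * Q := by gcongr
        _ = Ck κ * Q * psi κ L Q := by ring
  · -- `K > 2 Q`
    have hKP : K ≤ 2 * P := by linarith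
    have hKψ : psi κ L K ≤ 2 ^ (κ + 2) * psi κ L P := psi_le_of_le_two hL hK hKP
    have hQK : psi κ L Q ≤ psi κ L K := psi_mono hL hQ (by linarith)
    have hm : min P Q = Q := min_eq_right (by linarith)
    rw [hm]
    calc |psi κ L K - psi κ L Q| * Q ≤ (2 ^ (κ + 2) * psi κ L P) * Q := by
          gcongr
          exact habs.trans ((max_le le_rfl hQK).trans hKψ)
      _ ≤ (Ck κ * psi κ L P) * Q := by gcongr
      _ ≤ Ck κ * Q * (psi κ L P + psi κ L Q) := by
        have : 0 ≤ Ck κ * Q * psi κ L Q := by positivity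
        nlinarith

end Pool.Agent.TH305.FB
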